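import Pool.Agent.T3H29.DG.Asym

/-! The choice of the parameters, with a bound for the number of the windows. -/

set_option autoImplicit false

open Finset Filter

namespace Pool.Agent.T3H29.DS

open Pool.Agent.T3H29.DG

theorem asym2 (b : ℕ) (hb : 2 ≤ b) (η σ t' C : ℝ) (hη : 0 ≤ η) (hησ : 2 * η < σ) (hσ : σ ≤ 1)
    (ht0 : 0 < t') (ht1 : t' ≤ 1) (ht' : t' * (2 - σ) < 1 - η) (hC : 0 ≤ C) (A : ℕ) :
    ∃ k0 : ℕ, ∀ k : ℕ, k0 ≤ k → ∃ w Q : ℕ, 1 + Q * w ≤ k ∧ Q ≤ Nat.sqrt k * b ^ 3 ∧ ∀ Δ : ℕ, (Δ : ℝ) ≤ ((b : ℝ) ^ k) ^ t' →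
      (1 + Real.log Δ) ^ 2 * (C * (((b : ℝ) ^ w) ^ 2 * (1 - 1 / (b : ℝ) ^ 3) ^ Q +
        (Nat.clog 2 Δ : ℝ) * (4 * (b : ℝ) ^ 2 * (((b : ℝ) ^ w) ^ (-(σ - 2 * η)) +
          (Δ : ℝ) ^ (2 - σ) * ((b : ℝ) ^ k) ^ (η - 1))))) ≤ 1 / (k : ℝ) ^ A := by
  have hbr : (2 : ℝ) ≤ b := by exact_mod_cast hb
  have hb0 : (0 : ℝ) < b := by linarith
  have hlb0 : 0 < Real.log b := Real.log_pos (by linarith)
  have hlb1 : Real.log b ≤ b := by
    have := Real.log_le_sub_one_of_pos hb0
    linarith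
  set c1 : ℝ := (σ - 2 * η) * Real.log b / (2 * (b : ℝ) ^ 3) with hc1
  set c2 : ℝ := (1 - η - t' * (2 - σ)) * Real.log b with hc2
  have hc1p : 0 < c1 := by
    rw [hc1]
    have : 0 < σ - 2 * η := by linarith
    positivity
  have hc2p : 0 < c2 := by
    rw [hc2]
    have : 0 < 1 - η - t' * (2 - σ) := by linarith
    positivity
  obtain ⟨c, hc, hcc1, hcc2, hcc3⟩ : ∃ c : ℝ, 0 < c ∧ c ≤ c1 ∧ c ≤ c2 ∧ c ≤ 3 / 4 := by
    refine ⟨min (min c1 c2) (3 / 4), ?_, ?_, ?_, ?_⟩
    · exact lt_min (lt_min hc1p hc2p) (by norm_num)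
    · exact (min_le_left _ _).trans (min_le_left _ _)
    · exact (min_le_left _ _).trans (min_le_right _ _)
    · exact min_le_right _ _
  obtain ⟨s0, hs0⟩ := evp (2 * (3 + A)) c (100 * C * (b : ℝ) ^ 6) hc
  refine ⟨(max s0 2) ^ 2, fun k hk => ?_⟩
  set s : ℕ := Nat.sqrt k with hs
  have hsmax : max s0 2 ≤ s := by rw [hs, Nat.le_sqrt']; exact hk
  have hs2 : 2 ≤ s := (le_max_right _ _).trans hsmax
  have hss0 : s0 ≤ s := (le_max_left _ _).trans hsmax
  have hsk : s ^ 2 ≤ k := Nat.sqrt_le' k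
  have hks : k < (s + 1) ^ 2 := Nat.lt_succ_sqrt' k
  have hsr : (2 : ℝ) ≤ s := by exact_mod_cast hs2
  set P : ℝ := ((s : ℝ) + 1) ^ 2 with hP
  have hkP : (k : ℝ) ≤ P := by
    rw [hP]
    exact_mod_cast hks.le
  have hP1 : 1 ≤ P := by rw [hP]; nlinarith
  have hk0 : 0 < k := by nlinarith
  have hkr : (0 : ℝ) < k := by exact_mod_cast hk0
  refine ⟨s / (2 * b ^ 3), s * b ^ 3, ?_, le_rfl, ?_⟩
  · have h1 : b ^ 3 * (s / (2 * b ^ 3)) * 2 ≤ s := by
      have := Nat.mul_div_le s (2 * b ^ 3)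
      calc b ^ 3 * (s / (2 * b ^ 3)) * 2 = 2 * b ^ 3 * (s / (2 * b ^ 3)) := by ring
        _ ≤ s := this
    have h2 : s * b ^ 3 * (s / (2 * b ^ 3)) * 2 ≤ s * s := by
      calc s * b ^ 3 * (s / (2 * b ^ 3)) * 2 = s * (b ^ 3 * (s / (2 * b ^ 3)) * 2) := by ring
        _ ≤ s * s := Nat.mul_le_mul_left _ h1
    nlinarith
  · intro Δ hΔ
    set w : ℕ := s / (2 * b ^ 3) with hw
    set E : ℝ := Real.exp (-(c * s)) with hE
    have hE0 : 0 < E := Real.exp_pos _
    have hbk : (1 : ℝ) ≤ (b : ℝ) ^ k := one_le_pow₀ (by linarith)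
    -- the logarithm
    have hlΔ : Real.log Δ ≤ P * b := by
      rcases Nat.eq_zero_or_pos Δ with h0 | h0
      · rw [h0]
        simp only [Nat.cast_zero, Real.log_zero]
        positivity
      · have h1 : (0 : ℝ) < Δ := by exact_mod_cast h0
        have h2 := Real.log_le_log h1 hΔ
        rw [Real.log_rpow (by positivity), Real.log_pow] at h2
        calc Real.log Δ ≤ t' * (k * Real.log b) := h2
          _ ≤ 1 * (k * Real.log b) := mul_le_mul_of_nonneg_right ht1 (by positivity)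
          _ ≤ 1 * (P * b) := by gcongr
          _ = P * b := one_mul _
    have hlΔ0 : 0 ≤ Real.log Δ := Real.log_natCast_nonneg Δ
    have hPb : 2 ≤ P * b := by nlinarith
    have f1 : (1 + Real.log Δ) ^ 2 ≤ (2 * (P * b)) ^ 2 := by
      apply pow_le_pow_left₀ (by linarith)
      linarith
    have f2 : (Nat.clog 2 Δ : ℝ) ≤ 3 * (P * b) := by
      rcases Nat.lt_or_ge 1 Δ with h1 | h1
      · have h2 : 2 ^ (Nat.clog 2 Δ - 1) < Δ := Nat.pow_pred_clog_lt_self (by norm_num) h1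
        have h3 : ((Nat.clog 2 Δ - 1 : ℕ) : ℝ) * Real.log 2 ≤ Real.log Δ := by
          rw [← Real.log_pow]
          apply Real.log_le_log (by positivity)
          exact_mod_cast h2.le
        have h4 : (Nat.clog 2 Δ : ℝ) ≤ ((Nat.clog 2 Δ - 1 : ℕ) : ℝ) + 1 := by
          have : Nat.clog 2 Δ ≤ (Nat.clog 2 Δ - 1) + 1 := by omega
          exact_mod_cast this
        have h5 : 0.69 < Real.log 2 := by linarith [Real.log_two_gt_d9]
        have h6 : ((Nat.clog 2 Δ - 1 : ℕ) : ℝ) * 0.69 ≤ ((Nat.clog 2 Δ - 1 : ℕ) : ℝ) * Real.log 2 :=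
          mul_le_mul_of_nonneg_left h5.le (Nat.cast_nonneg _)
        linarith
      · rw [Nat.clog_of_right_le_one h1]
        simp only [Nat.cast_zero]
        positivity
    -- term 1
    have hwle : (w : ℝ) ≤ s / (2 * (b : ℝ) ^ 3) := by
      rw [hw]
      have := @Nat.cast_div_le ℝ _ _ _ s (2 * b ^ 3)
      push_cast at this
      exact this
    have hwge : (s : ℝ) / (2 * (b : ℝ) ^ 3) - 1 ≤ w := by
      have h1 : s < 2 * b ^ 3 * (w + 1) := by
        rw [hw]
        exact Nat.lt_mul_div_succ s (by positivity)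
      have h2 : (s : ℝ) < 2 * (b : ℝ) ^ 3 * (w + 1) := by exact_mod_cast h1
      have h3 : (s : ℝ) / (2 * (b : ℝ) ^ 3) ≤ w + 1 := by
        rw [div_le_iff₀ (by positivity)]
        linarith
      linarith
    have g1 : ((b : ℝ) ^ w) ^ 2 ≤ Real.exp (s / 4) := by
      rw [← pow_mul, ← Real.rpow_natCast, Real.rpow_def_of_pos hb0]
      apply Real.exp_le_exp.2
      push_cast
      have h1 : Real.log b ≤ b - 1 := Real.log_le_sub_one_of_pos hb0
      calc Real.log b * (w * 2) ≤ b * (s / (2 * (b : ℝ) ^ 3) * 2) := by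
            apply mul_le_mul hlb1 _ (by positivity) hb0.le
            linarith
        _ = s / (b : ℝ) ^ 2 := by field_simp
        _ ≤ s / 4 := by
            apply div_le_div_of_nonneg_left (by positivity) (by norm_num)
            nlinarith
    have g2 : (1 - 1 / (b : ℝ) ^ 3) ^ (s * b ^ 3) ≤ Real.exp (-s) := by
      have h0 : (0 : ℝ) ≤ 1 - 1 / (b : ℝ) ^ 3 := by
        have : 1 / (b : ℝ) ^ 3 ≤ 1 := by
          rw [div_le_one (by positivity)]
          exact one_le_pow₀ (by linarith)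
        linarith
      have h1 : 1 - 1 / (b : ℝ) ^ 3 ≤ Real.exp (-(1 / (b : ℝ) ^ 3)) := by
        have := Real.add_one_le_exp (-(1 / (b : ℝ) ^ 3))
        linarith
      calc (1 - 1 / (b : ℝ) ^ 3) ^ (s * b ^ 3) ≤ Real.exp (-(1 / (b : ℝ) ^ 3)) ^ (s * b ^ 3) :=
            pow_le_pow_left₀ h0 h1 _
        _ = Real.exp (-s) := by
            rw [← Real.exp_nat_mul]
            congr 1
            push_cast
            field_simp
    have g3 : ((b : ℝ) ^ w) ^ 2 * (1 - 1 / (b : ℝ) ^ 3) ^ (s * b ^ 3) ≤ E := by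
      have h0 : (0 : ℝ) ≤ 1 - 1 / (b : ℝ) ^ 3 := by
        have : 1 / (b : ℝ) ^ 3 ≤ 1 := by
          rw [div_le_one (by positivity)]
          exact one_le_pow₀ (by linarith)
        linarith
      calc ((b : ℝ) ^ w) ^ 2 * (1 - 1 / (b : ℝ) ^ 3) ^ (s * b ^ 3) ≤ Real.exp (s / 4) * Real.exp (-s) :=
            mul_le_mul g1 g2 (by positivity) (Real.exp_pos _).le
        _ = Real.exp (-(3 / 4 * s)) := by
            rw [← Real.exp_add]
            congr 1
            ring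
        _ ≤ E := by
            rw [hE]
            apply Real.exp_le_exp.2
            have := mul_le_mul_of_nonneg_right hcc3 (show (0 : ℝ) ≤ s by linarith)
            linarith
    -- term 2
    have g4 : ((b : ℝ) ^ w) ^ (-(σ - 2 * η)) ≤ b * E := by
      rw [← Real.rpow_natCast, ← Real.rpow_mul hb0.le, Real.rpow_def_of_pos hb0]
      have h1 : b * E = Real.exp (Real.log b + -(c * s)) := by
        rw [Real.exp_add, Real.exp_log hb0]
      rw [h1]
      apply Real.exp_le_exp.2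
      have h2 : (σ - 2 * η) * (s / (2 * (b : ℝ) ^ 3) - 1) ≤ (σ - 2 * η) * w :=
        mul_le_mul_of_nonneg_left hwge (by linarith)
      have h3 : Real.log b * ((σ - 2 * η) * (s / (2 * (b : ℝ) ^ 3) - 1)) ≤
          Real.log b * ((σ - 2 * η) * w) := mul_le_mul_of_nonneg_left h2 hlb0.le
      have h4 : Real.log b * ((σ - 2 * η) * (s / (2 * (b : ℝ) ^ 3) - 1)) =
          c1 * s - Real.log b * (σ - 2 * η) := by
        rw [hc1]
        field_simp
      have h5 : c * s ≤ c1 * s := mul_le_mul_of_nonneg_right hcc1 (by linarith)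
      have h6 : Real.log b * (σ - 2 * η) ≤ Real.log b * 1 :=
        mul_le_mul_of_nonneg_left (by linarith) hlb0.le
      have h7 : Real.log b * (w * -(σ - 2 * η)) = - (Real.log b * ((σ - 2 * η) * w)) := by ring
      rw [h7]
      linarith
    -- term 3
    have g5 : (Δ : ℝ) ^ (2 - σ) * ((b : ℝ) ^ k) ^ (η - 1) ≤ E := by
      calc (Δ : ℝ) ^ (2 - σ) * ((b : ℝ) ^ k) ^ (η - 1) ≤
          (((b : ℝ) ^ k) ^ t') ^ (2 - σ) * ((b : ℝ) ^ k) ^ (η - 1) := by
            apply mul_le_mul_of_nonneg_right _ (by positivity)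
            exact Real.rpow_le_rpow (Nat.cast_nonneg _) hΔ (by linarith)
        _ = ((b : ℝ) ^ k) ^ (-(1 - η - t' * (2 - σ))) := by
            rw [← Real.rpow_mul (by positivity), ← Real.rpow_add (by positivity)]
            congr 1
            ring
        _ = Real.exp (-(c2 * k)) := by
            rw [Real.rpow_def_of_pos (by positivity), Real.log_pow]
            congr 1
            rw [hc2]
            ring
        _ ≤ E := by
            rw [hE]
            apply Real.exp_le_exp.2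
            have h1 : (s : ℝ) ≤ k := by
              have : s ≤ k := by nlinarith
              exact_mod_cast this
            have h2 : c * s ≤ c2 * k := mul_le_mul hcc2 h1 (by linarith) hc2p.le
            linarith
    -- total
    have hmain : C * (((b : ℝ) ^ w) ^ 2 * (1 - 1 / (b : ℝ) ^ 3) ^ (s * b ^ 3) +
        (Nat.clog 2 Δ : ℝ) * (4 * (b : ℝ) ^ 2 * (((b : ℝ) ^ w) ^ (-(σ - 2 * η)) +
          (Δ : ℝ) ^ (2 - σ) * ((b : ℝ) ^ k) ^ (η - 1)))) ≤ C * (25 * P * (b : ℝ) ^ 4 * E) := by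
      apply mul_le_mul_of_nonneg_left _ hC
      calc ((b : ℝ) ^ w) ^ 2 * (1 - 1 / (b : ℝ) ^ 3) ^ (s * b ^ 3) +
        (Nat.clog 2 Δ : ℝ) * (4 * (b : ℝ) ^ 2 * (((b : ℝ) ^ w) ^ (-(σ - 2 * η)) +
          (Δ : ℝ) ^ (2 - σ) * ((b : ℝ) ^ k) ^ (η - 1))) ≤
          E + (3 * (P * b)) * (4 * (b : ℝ) ^ 2 * (b * E + E)) := by
            apply add_le_add g3
            apply mul_le_mul f2 _ (by positivity) (by positivity)
            apply mul_le_mul_of_nonneg_left _ (by positivity)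
            exact add_le_add g4 g5
        _ = (1 + 12 * P * (b : ℝ) ^ 3 * (b + 1)) * E := by ring
        _ ≤ (25 * P * (b : ℝ) ^ 4) * E := by
            apply mul_le_mul_of_nonneg_right _ hE0.le
            have h1 : (1 : ℝ) ≤ P * (b : ℝ) ^ 4 := one_le_mul_of_one_le_of_one_le hP1 (one_le_pow₀ (by linarith))
            have h2 : P * (b : ℝ) ^ 3 * 2 ≤ P * (b : ℝ) ^ 3 * b :=
              mul_le_mul_of_nonneg_left hbr (by positivity)
            nlinarith
    rw [le_div_iff₀ (by positivity)]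
    calc (1 + Real.log Δ) ^ 2 * (C * (((b : ℝ) ^ w) ^ 2 * (1 - 1 / (b : ℝ) ^ 3) ^ (s * b ^ 3) +
        (Nat.clog 2 Δ : ℝ) * (4 * (b : ℝ) ^ 2 * (((b : ℝ) ^ w) ^ (-(σ - 2 * η)) +
          (Δ : ℝ) ^ (2 - σ) * ((b : ℝ) ^ k) ^ (η - 1))))) * (k : ℝ) ^ A ≤
        ((2 * (P * b)) ^ 2 * (C * (25 * P * (b : ℝ) ^ 4 * E))) * P ^ A := by
          have h0 : (0 : ℝ) ≤ 1 - 1 / (b : ℝ) ^ 3 := by
            have : 1 / (b : ℝ) ^ 3 ≤ 1 := by
              rw [div_le_one (by positivity)]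
              exact one_le_pow₀ (by linarith)
            linarith
          apply mul_le_mul
          · apply mul_le_mul f1 hmain
            · apply mul_nonneg hC
              positivity
            · positivity
          · exact pow_le_pow_left₀ hkr.le hkP A
          · positivity
          · positivity
      _ = 100 * C * (b : ℝ) ^ 6 * P ^ (3 + A) * E := by ring
      _ = 100 * C * (b : ℝ) ^ 6 * ((s : ℝ) + 1) ^ (2 * (3 + A)) * E := by
          rw [hP, ← pow_mul]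
      _ ≤ 1 := hs0 s hss0

end Pool.Agent.T3H29.DS
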