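import Pool.Agent.T3H29.DG.ErrT

/-! The error terms of the sieve for `n ^ 2 + a` on a set with small exponential sums. -/

set_option autoImplicit false

open Finset Polynomial

namespace Pool.Agent.T3H29.DS

open Pool.Agent.T3H29.DG
open Pool.Agent.Y882.PX
open Pool.Agent.Y882.SI

theorem RT_leS (a : ℤ) (b : ℕ) (S : Finset ℕ) (X : ℝ) (U : ℕ → ℝ)
    (hfr : ∀ d : ℕ, 0 < d → ∑ h ∈ (range d).erase 0, ‖∑ n ∈ S, ee (n * ((h : ℝ) / d))‖ ≤
      X * ∑ e ∈ d.divisors.erase 1, U e)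
    (T : Finset ℕ) (hT : ∀ p ∈ T, p.Prime) (hTb : ∀ p ∈ T, ¬ p ∣ b) :
    |((S.filter (fun n : ℕ => ∏ p ∈ T, p ∣ ((QF a).eval (n : ℤ)).natAbs)).card : ℝ) -
      S.card * ∏ p ∈ T, ((rb a b p : ℝ) / p)| ≤
      X * ((kap (∏ p ∈ T, p) : ℝ) / ((∏ p ∈ T, p : ℕ) : ℝ) *
        ∑ e ∈ (∏ p ∈ T, p).divisors.erase 1, U e) := by
  classical
  obtain ⟨d, hd⟩ : ∃ d, d = ∏ p ∈ T, p := ⟨_, rfl⟩
  rw [← hd]
  have hd0 : 0 < d := by
    rw [hd]
    exact prod_pos fun p hp => (hT p hp).pos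
  have hdr : (0 : ℝ) < d := by exact_mod_cast hd0
  have h1 := classes S d hd0 (fun n : ℕ => d ∣ ((QF a).eval (n : ℤ)).natAbs) (fun n => QF_mod a d n)
  have h2 : ((range d).filter (fun n : ℕ => d ∣ ((QF a).eval (n : ℤ)).natAbs)).card = ro (QF a) 0 d := by
    rw [ro_eq]
    congr 1
    apply filter_congr
    intro n _
    rw [add_zero, Int.natCast_dvd]
  rw [h2] at h1
  have h3 : (ro (QF a) 0 d : ℝ) * ((S.card : ℝ) / d) = S.card * ∏ p ∈ T, ((rb a b p : ℝ) / p) := by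
    have h4 : ∏ p ∈ T, ((rb a b p : ℝ) / p) = (ro (QF a) 0 d : ℝ) / d := by
      rw [hd, ro_prod (QF a) 0 T hT]
      push_cast
      rw [← prod_div_distrib]
      apply prod_congr rfl
      intro p hp
      unfold rb
      rw [if_neg (hTb p hp)]
    rw [h4]
    ring
  rw [h3] at h1
  refine h1.trans ?_
  have h4 : (ro (QF a) 0 d : ℝ) ≤ kap d := by
    have h5 : kap d = 2 ^ T.card := by
      unfold kap
      rw [hd, Nat.primeFactors_prod hT]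
    rw [h5]
    have h6 : ro (QF a) 0 d ≤ 2 ^ T.card := by
      rw [hd, ro_prod (QF a) 0 T hT]
      calc ∏ p ∈ T, ro (QF a) 0 p ≤ ∏ p ∈ T, 2 := prod_le_prod' fun p hp => ro_quad_le a p (hT p hp)
        _ = 2 ^ T.card := by rw [prod_const]
    exact_mod_cast h6
  have h5 := hfr d hd0
  calc (ro (QF a) 0 d : ℝ) / d * ∑ h ∈ (range d).erase 0, ‖∑ n ∈ S, ee (n * ((h : ℝ) / d))‖ ≤
      (kap d : ℝ) / d * (X * ∑ e ∈ d.divisors.erase 1, U e) := by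
        apply mul_le_mul _ h5 (sum_nonneg fun _ _ => norm_nonneg _) (by positivity)
        exact div_le_div_of_nonneg_right h4 hdr.le
    _ = _ := by ring

theorem RT_zeroS (a : ℤ) (b : ℕ) (S : Finset ℕ) (d0 : ℕ) (hS0 : ∀ n ∈ S, n % b = d0) (hd0 : Nat.Coprime ((d0 : ℤ) ^ 2 + a).natAbs b)
    (T : Finset ℕ) (hT : ∀ p ∈ T, p.Prime) (p : ℕ) (hp : p ∈ T) (hpb : p ∣ b) :
    ((S.filter (fun n : ℕ => ∏ p ∈ T, p ∣ ((QF a).eval (n : ℤ)).natAbs)).card : ℝ) -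
      S.card * ∏ p ∈ T, ((rb a b p : ℝ) / p) = 0 := by
  have h1 : ∏ p ∈ T, ((rb a b p : ℝ) / p) = 0 := by
    apply prod_eq_zero hp
    unfold rb
    rw [if_pos hpb]
    simp
  have h2 : S.filter (fun n : ℕ => ∏ p ∈ T, p ∣ ((QF a).eval (n : ℤ)).natAbs) = ∅ := by
    apply filter_false_of_mem
    intro n hn hdvd
    have h3 := hS0 n hn
    have h4 : p ∣ ((QF a).eval (n : ℤ)).natAbs := (dvd_prod_of_mem _ hp).trans hdvd
    have h5 : p ∣ ((QF a).eval (d0 : ℤ)).natAbs := by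
      rw [QF_mod a p n] at h4
      rw [QF_mod a p d0]
      have h6 : n % p = d0 % p := by
        rw [← h3, Nat.mod_mod_of_dvd n hpb]
      rwa [h6] at h4
    rw [QF_eval] at h5
    have h7 : p ∣ 1 := by
      rw [← hd0]
      exact Nat.dvd_gcd h5 hpb
    exact (hT p hp).one_lt.ne' (Nat.dvd_one.1 h7)
  rw [h1, h2]
  simp

theorem err_totalS (a : ℤ) (b : ℕ) (S : Finset ℕ) (X : ℝ) (hX : 0 ≤ X) (U : ℕ → ℝ) (hU0 : ∀ e, 0 ≤ U e)
    (hfr : ∀ d : ℕ, 0 < d → ∑ h ∈ (range d).erase 0, ‖∑ n ∈ S, ee (n * ((h : ℝ) / d))‖ ≤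
      X * ∑ e ∈ d.divisors.erase 1, U e)
    (d0 : ℕ) (hS0 : ∀ n ∈ S, n % b = d0) (hd0 : Nat.Coprime ((d0 : ℤ) ^ 2 + a).natAbs b) (P : Finset ℕ)
    (hP : ∀ p ∈ P, p.Prime) (c : Finset ℕ → ℝ) (M : ℝ) (hM : 0 ≤ M) (hc : ∀ T, |c T| ≤ M) (Δ : ℕ)
    (hcΔ : ∀ T ⊆ P, c T ≠ 0 → ∏ p ∈ T, p ≤ Δ) :
    |∑ T ∈ P.powerset, c T *
      (((S.filter (fun n : ℕ => ∏ p ∈ T, p ∣ ((QF a).eval (n : ℤ)).natAbs)).card : ℝ) -
      S.card * ∏ p ∈ T, ((rb a b p : ℝ) / p))| ≤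
      M * (X * ((1 + Real.log Δ) ^ 2 *
        ∑ e ∈ (Ioc 1 Δ).filter (fun e => Nat.Coprime e b), (kap e : ℝ) / e * U e)) := by
  classical
  refine (abs_sum_le_sum_abs _ _).trans ?_
  set 𝒯 := P.powerset.filter (fun T => ∏ p ∈ T, p ≤ Δ ∧ ∀ p ∈ T, ¬ p ∣ b) with h𝒯
  set g : Finset ℕ → ℝ := fun T => M * (X * ((kap (∏ p ∈ T, p) : ℝ) / ((∏ p ∈ T, p : ℕ) : ℝ) *
        ∑ e ∈ (∏ p ∈ T, p).divisors.erase 1, U e)) with hg
  have hsum0 : ∀ T : Finset ℕ, 0 ≤ ∑ e ∈ (∏ p ∈ T, p).divisors.erase 1, U e := fun T =>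
    sum_nonneg fun e _ => hU0 _
  have hg0 : ∀ T, 0 ≤ g T := by
    intro T
    simp only [hg]
    have := hsum0 T
    positivity
  have h1 : ∀ T ∈ P.powerset, |c T *
      (((S.filter (fun n : ℕ => ∏ p ∈ T, p ∣ ((QF a).eval (n : ℤ)).natAbs)).card : ℝ) -
      S.card * ∏ p ∈ T, ((rb a b p : ℝ) / p))| ≤ if T ∈ 𝒯 then g T else 0 := by
    intro T hT
    have hTP := mem_powerset.1 hT
    have hTp : ∀ p ∈ T, p.Prime := fun p hp => hP p (hTP hp)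
    rw [abs_mul]
    by_cases hb' : ∀ p ∈ T, ¬ p ∣ b
    · by_cases hc0 : c T = 0
      · rw [hc0, abs_zero, zero_mul]
        split_ifs
        · exact hg0 T
        · exact le_rfl
      · have h2 : T ∈ 𝒯 := by
          rw [h𝒯, mem_filter]
          exact ⟨hT, hcΔ T hTP hc0, hb'⟩
        rw [if_pos h2]
        simp only [hg]
        exact mul_le_mul (hc T) (RT_leS a b S X U hfr T hTp hb') (abs_nonneg _) hM
    · push Not at hb'
      obtain ⟨p, hp, hpb⟩ := hb'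
      rw [RT_zeroS a b S d0 hS0 hd0 T hTp p hp hpb, abs_zero, mul_zero]
      split_ifs
      · exact hg0 T
      · exact le_rfl
  refine (sum_le_sum h1).trans ?_
  rw [← sum_filter]
  have h2 : P.powerset.filter (fun T => T ∈ 𝒯) = 𝒯 := by
    rw [h𝒯]
    ext T
    simp only [mem_filter]
    tauto
  rw [h2]
  have hinj : Set.InjOn (fun T : Finset ℕ => ∏ p ∈ T, p) 𝒯 := by
    intro T hT T' hT' h
    rw [h𝒯, mem_coe, mem_filter, mem_powerset] at hT hT'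
    have h1 : (∏ p ∈ T, p).primeFactors = T :=
      Nat.primeFactors_prod fun p hp => hP p (hT.1 hp)
    have h2 : (∏ p ∈ T', p).primeFactors = T' :=
      Nat.primeFactors_prod fun p hp => hP p (hT'.1 hp)
    have h3 : (∏ p ∈ T, p) = ∏ p ∈ T', p := h
    rw [← h1, ← h2, h3]
  have h3 := swap b Δ U hU0 (𝒯.image (fun T => ∏ p ∈ T, p)) (by
    intro d hd
    rw [mem_image] at hd
    obtain ⟨T, hT, rfl⟩ := hd
    rw [h𝒯, mem_filter, mem_powerset] at hT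
    refine ⟨?_, hT.2.1, ?_⟩
    · exact Nat.pos_of_ne_zero (prod_ne_zero_iff.2 fun p hp => (hP p (hT.1 hp)).ne_zero)
    · apply Nat.Coprime.prod_left
      intro p hp
      exact (Nat.Prime.coprime_iff_not_dvd (hP p (hT.1 hp))).2 (hT.2.2 p hp))
  rw [sum_image (fun x hx y hy h => hinj hx hy h)] at h3
  calc ∑ T ∈ 𝒯, g T = M * (X * ∑ T ∈ 𝒯, (kap (∏ p ∈ T, p) : ℝ) / ((∏ p ∈ T, p : ℕ) : ℝ) *
        ∑ e ∈ (∏ p ∈ T, p).divisors.erase 1, U e) := by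
        simp only [hg]
        rw [← mul_sum, ← mul_sum]
    _ ≤ _ := by
        apply mul_le_mul_of_nonneg_left _ hM
        apply mul_le_mul_of_nonneg_left _ hX
        exact h3

end Pool.Agent.T3H29.DS
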