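import Pool.Agent.T3H29.DS.Sup
import Pool.Agent.T3H29.DG.Dist

/-! Integers with restricted digits and a prescribed value of a linear digital function. -/

set_option autoImplicit false

open Finset

namespace Pool.Agent.T3H29.DS

open Pool.Agent.T3H29.DG

/-- the linear digital function -/
def dfn (b : ℕ) (c : ℕ → ℤ) (k n : ℕ) : ℤ := ∑ i ∈ range k, c i * ((n / b ^ i % b : ℕ) : ℤ)

/-- the integers with restricted digits and with the value `r` of the digital function modulo `M` -/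
def SR (b : ℕ) (D : ℕ → Finset ℕ) (c : ℕ → ℤ) (M : ℕ) (r : ℤ) (k : ℕ) : Finset ℕ :=
  (SD b D k).filter (fun n => (M : ℤ) ∣ dfn b c k n - r)

/-- the average over the characters -/
noncomputable def AT (b : ℕ) (D : ℕ → Finset ℕ) (c : ℕ → ℤ) (M k : ℕ) (θ : ℝ) : ℝ :=
  1 / (M : ℝ) * ∑ j ∈ range M, UT b D k (fun i => (j : ℝ) * c i / M) θ

noncomputable def AU (b : ℕ) (D : ℕ → Finset ℕ) (c : ℕ → ℤ) (M k e : ℕ) : ℝ :=
  1 / (M : ℝ) * ∑ j ∈ range M, US b D k (fun i => (j : ℝ) * c i / M) e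

theorem AT_nonneg (b : ℕ) (D : ℕ → Finset ℕ) (c : ℕ → ℤ) (M k : ℕ) (θ : ℝ) : 0 ≤ AT b D c M k θ :=
  mul_nonneg (by positivity) (sum_nonneg fun _ _ => UT_nonneg _ _ _ _ _)

theorem AU_nonneg (b : ℕ) (D : ℕ → Finset ℕ) (c : ℕ → ℤ) (M k e : ℕ) : 0 ≤ AU b D c M k e :=
  mul_nonneg (by positivity) (sum_nonneg fun _ _ => US_nonneg _ _ _ _ _)

theorem AU_eq (b : ℕ) (D : ℕ → Finset ℕ) (c : ℕ → ℤ) (M k e : ℕ) :
    AU b D c M k e = ∑ h ∈ (range e).filter (fun h => Nat.Coprime h e), AT b D c M k ((h : ℝ) / e) := by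
  unfold AU AT US
  rw [sum_comm, ← mul_sum]

/-- the detection of the value of the digital function -/
theorem detect (b : ℕ) (D : ℕ → Finset ℕ) (c : ℕ → ℤ) (M : ℕ) (hM : 1 ≤ M) (r : ℤ) (k : ℕ) (θ : ℝ) :
    (M : ℂ) * ∑ n ∈ SR b D c M r k, ee (n * θ) =
      ∑ j ∈ range M, ee (-(j * ((r : ℝ) / M))) *
        ∑ n ∈ SD b D k, ee (n * θ + ∑ i ∈ range k, ((j : ℝ) * c i / M) * ((n / b ^ i % b : ℕ) : ℝ)) := by
  have hM0 : (M : ℝ) ≠ 0 := by exact_mod_cast (by omega : M ≠ 0)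
  unfold SR
  rw [sum_filter, mul_sum]
  have h1 : ∀ n ∈ SD b D k, (M : ℂ) * (if (M : ℤ) ∣ dfn b c k n - r then ee (n * θ) else 0) =
      ∑ j ∈ range M, ee (-(j * ((r : ℝ) / M))) *
        ee (n * θ + ∑ i ∈ range k, ((j : ℝ) * c i / M) * ((n / b ^ i % b : ℕ) : ℝ)) := by
    intro n _
    have h2 := orth M hM (dfn b c k n - r)
    have h3 : (M : ℂ) * (if (M : ℤ) ∣ dfn b c k n - r then ee (n * θ) else 0) =
        (if (M : ℤ) ∣ dfn b c k n - r then (M : ℂ) else 0) * ee (n * θ) := by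
      split_ifs <;> simp
    rw [h3, ← h2, sum_mul]
    apply sum_congr rfl
    intro j _
    rw [← ee_add, ← ee_add]
    congr 1
    have h4 : ∑ i ∈ range k, ((j : ℝ) * c i / M) * ((n / b ^ i % b : ℕ) : ℝ) =
        j * ((dfn b c k n : ℤ) : ℝ) / M := by
      unfold dfn
      rw [Int.cast_sum, mul_sum, sum_div]
      apply sum_congr rfl
      intro i _
      rw [Int.cast_mul, Int.cast_natCast]
      ring
    rw [h4]
    push_cast
    ring
  rw [sum_congr rfl h1, sum_comm]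
  apply sum_congr rfl
  intro j _
  rw [mul_sum]

theorem norm_SR (b : ℕ) (hb : 0 < b) (D : ℕ → Finset ℕ) (c : ℕ → ℤ) (M : ℕ) (hM : 1 ≤ M) (r : ℤ) (k : ℕ)
    (hD : ∀ i < k, D i ⊆ range b) (θ : ℝ) :
    ‖∑ n ∈ SR b D c M r k, ee (n * θ)‖ ≤ AT b D c M k θ * (SD b D k).card := by
  have hM0 : (0 : ℝ) < M := by exact_mod_cast hM
  have h1 := detect b D c M hM r k θ
  have h2 : (M : ℝ) * ‖∑ n ∈ SR b D c M r k, ee (n * θ)‖ ≤
      ∑ j ∈ range M, UT b D k (fun i => (j : ℝ) * c i / M) θ * (SD b D k).card := by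
    have h3 : (M : ℝ) * ‖∑ n ∈ SR b D c M r k, ee (n * θ)‖ = ‖(M : ℂ) * ∑ n ∈ SR b D c M r k, ee (n * θ)‖ := by
      rw [norm_mul, Complex.norm_natCast]
    rw [h3, h1]
    refine (norm_sum_le _ _).trans ?_
    apply sum_le_sum
    intro j _
    rw [norm_mul, norm_ee, one_mul, norm_US b hb D k hD]
  unfold AT
  rw [← sum_mul] at h2
  rw [mul_assoc, one_div, inv_mul_eq_div, le_div_iff₀ hM0, mul_comm]
  exact h2

theorem card_SR (b : ℕ) (hb : 0 < b) (D : ℕ → Finset ℕ) (c : ℕ → ℤ) (M : ℕ) (hM : 1 ≤ M) (r : ℤ) (k : ℕ)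
    (hD : ∀ i < k, D i ⊆ range b)
    (h : ∑ j ∈ (range M).erase 0, UT b D k (fun i => (j : ℝ) * c i / M) 0 ≤ 1 / 2) :
    ((SD b D k).card : ℝ) ≤ 2 * M * (SR b D c M r k).card := by
  have hM0 : (0 : ℝ) < M := by exact_mod_cast hM
  have h1 := detect b D c M hM r k 0
  have h2 : ∑ n ∈ SR b D c M r k, ee (n * 0) = ((SR b D c M r k).card : ℂ) := by
    simp [ee_zero]
  rw [h2, ← add_sum_erase (range M) _ (mem_range.2 hM)] at h1
  have h3 : ee (-(((0 : ℕ) : ℝ) * ((r : ℝ) / M))) * ∑ n ∈ SD b D k, ee (n * 0 +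
      ∑ i ∈ range k, ((((0 : ℕ) : ℝ)) * c i / M) * ((n / b ^ i % b : ℕ) : ℝ)) = ((SD b D k).card : ℂ) := by
    simp [ee_zero]
  rw [h3] at h1
  have h4 : ‖∑ j ∈ (range M).erase 0, ee (-(j * ((r : ℝ) / M))) *
        ∑ n ∈ SD b D k, ee (n * 0 + ∑ i ∈ range k, ((j : ℝ) * c i / M) * ((n / b ^ i % b : ℕ) : ℝ))‖ ≤
      1 / 2 * (SD b D k).card := by
    refine (norm_sum_le _ _).trans ?_
    calc ∑ j ∈ (range M).erase 0, ‖ee (-(j * ((r : ℝ) / M))) *
        ∑ n ∈ SD b D k, ee (n * 0 + ∑ i ∈ range k, ((j : ℝ) * c i / M) * ((n / b ^ i % b : ℕ) : ℝ))‖ =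
        ∑ j ∈ (range M).erase 0, UT b D k (fun i => (j : ℝ) * c i / M) 0 * (SD b D k).card := by
          apply sum_congr rfl
          intro j _
          rw [norm_mul, norm_ee, one_mul, norm_US b hb D k hD]
      _ ≤ _ := by
          rw [← sum_mul]
          exact mul_le_mul_of_nonneg_right h (Nat.cast_nonneg _)
  have h5 : ((SD b D k).card : ℂ) = (M : ℂ) * ((SR b D c M r k).card : ℂ) -
      ∑ j ∈ (range M).erase 0, ee (-(j * ((r : ℝ) / M))) *
        ∑ n ∈ SD b D k, ee (n * 0 + ∑ i ∈ range k, ((j : ℝ) * c i / M) * ((n / b ^ i % b : ℕ) : ℝ)) := by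
    rw [h1]
    ring
  have h6 : ((SD b D k).card : ℝ) ≤ M * (SR b D c M r k).card + 1 / 2 * (SD b D k).card := by
    calc ((SD b D k).card : ℝ) = ‖((SD b D k).card : ℂ)‖ := (Complex.norm_natCast _).symm
      _ ≤ ‖(M : ℂ) * ((SR b D c M r k).card : ℂ)‖ + _ := by
          rw [h5]
          exact norm_sub_le _ _
      _ ≤ _ := by
          rw [norm_mul, Complex.norm_natCast, Complex.norm_natCast]
          exact add_le_add le_rfl h4
  linarith

theorem frac_SR (b : ℕ) (hb : 0 < b) (D : ℕ → Finset ℕ) (c : ℕ → ℤ) (M : ℕ) (hM : 1 ≤ M) (r : ℤ) (k : ℕ)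
    (hD : ∀ i < k, D i ⊆ range b) (d : ℕ) (hd : 0 < d) :
    ∑ h ∈ (range d).erase 0, ‖∑ n ∈ SR b D c M r k, ee (n * ((h : ℝ) / d))‖ ≤
      (SD b D k).card * ∑ e ∈ d.divisors.erase 1, AU b D c M k e := by
  calc ∑ h ∈ (range d).erase 0, ‖∑ n ∈ SR b D c M r k, ee (n * ((h : ℝ) / d))‖ ≤
      ∑ h ∈ (range d).erase 0, AT b D c M k ((h : ℝ) / d) * (SD b D k).card :=
        sum_le_sum fun h _ => norm_SR b hb D c M hM r k hD _
    _ = (SD b D k).card * ∑ h ∈ (range d).erase 0, AT b D c M k ((h : ℝ) / d) := by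
        rw [← sum_mul]
        ring
    _ ≤ _ := by
        apply mul_le_mul_of_nonneg_left _ (Nat.cast_nonneg _)
        refine (sum_frac d hd (AT b D c M k) (AT_nonneg b D c M k)).trans (le_of_eq ?_)
        exact sum_congr rfl fun e _ => (AU_eq b D c M k e).symm

theorem sum_AU (b m : ℕ) (D : ℕ → Finset ℕ) (c : ℕ → ℤ) (M : ℕ) (hM : 1 ≤ M) (k : ℕ)
    (hD : ∀ i < k, D i ⊆ range b) (hm : ∀ i < k, 1 ≤ i → (range b \ D i).card ≤ m) (hmb : 2 * m < b)
    (L : ℝ) (hL1 : 1 ≤ L) (hL : 2 * ∑ t ∈ range b, gg b m t ≤ L) (J Q : ℕ) (hJ : Q ^ 2 ≤ b ^ J) :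
    ∑ e ∈ Icc 1 Q, AU b D c M k e ≤ b * (L ^ min J k * (b : ℝ) ^ (J - k)) := by
  have hM0 : (0 : ℝ) < M := by exact_mod_cast hM
  unfold AU
  rw [← mul_sum, sum_comm, one_div, inv_mul_eq_div, div_le_iff₀ hM0]
  calc ∑ j ∈ range M, ∑ e ∈ Icc 1 Q, US b D k (fun i => (j : ℝ) * c i / M) e ≤
      ∑ _j ∈ range M, b * (L ^ min J k * (b : ℝ) ^ (J - k)) :=
        sum_le_sum fun j _ => sum_US b m D k hD hm hmb _ L hL1 hL J Q hJ
    _ = _ := by
        rw [sum_const, card_range, nsmul_eq_mul]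
        ring

theorem AU_small (b m : ℕ) (D : ℕ → Finset ℕ) (c : ℕ → ℤ) (M : ℕ) (hM : 1 ≤ M) (k : ℕ)
    (hD : ∀ i < k, D i ⊆ range b) (hm : ∀ i < k, 1 ≤ i → (range b \ D i).card ≤ m)
    (hmb : 2 * m + 2 ≤ b) (Q w : ℕ) (hQ : 1 + Q * w ≤ k)
    (hsup : ∀ j ∈ (range M).erase 0, ∀ θ : ℝ, UT b D k (fun i => (j : ℝ) * c i / M) θ ≤ (1 - 1 / (b : ℝ) ^ 3) ^ Q)
    (e : ℕ) (he : 1 < e) (hbe : Nat.Coprime e b) (hw : e ≤ b ^ w) :
    AU b D c M k e ≤ e * (1 - 1 / (b : ℝ) ^ 3) ^ Q := by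
  have hM0 : (0 : ℝ) < M := by exact_mod_cast hM
  have hb0 : (2 : ℝ) ≤ b := by exact_mod_cast (by omega : 2 ≤ b)
  have h0 : (0 : ℝ) ≤ 1 - 1 / (b : ℝ) ^ 3 := by
    have : 1 / (b : ℝ) ^ 3 ≤ 1 := by
      rw [div_le_one (by positivity)]
      exact one_le_pow₀ (by linarith)
    linarith
  unfold AU
  rw [one_div, inv_mul_eq_div, div_le_iff₀ hM0]
  calc ∑ j ∈ range M, US b D k (fun i => (j : ℝ) * c i / M) e ≤
      ∑ _j ∈ range M, (e : ℝ) * (1 - 1 / (b : ℝ) ^ 3) ^ Q := by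
        apply sum_le_sum
        intro j hj
        rcases Nat.eq_zero_or_pos j with h | h
        · rw [h]
          have h1 : US b D k (fun i => ((0 : ℕ) : ℝ) * c i / M) e = TS b D k e := by
            unfold US TS
            apply sum_congr rfl
            intro h _
            rw [← UT_zero]
            congr 1
            ext i
            simp
          rw [h1]
          exact TS_small b m D k hD hm hmb e w he hbe hw Q hQ
        · unfold US
          calc ∑ h ∈ (range e).filter (fun h => Nat.Coprime h e), UT b D k (fun i => (j : ℝ) * c i / M) ((h : ℝ) / e) ≤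
              ∑ h ∈ (range e).filter (fun h => Nat.Coprime h e), (1 - 1 / (b : ℝ) ^ 3) ^ Q :=
                sum_le_sum fun h _ => hsup j (mem_erase.2 ⟨by omega, hj⟩) _
            _ = (((range e).filter (fun h => Nat.Coprime h e)).card : ℝ) * (1 - 1 / (b : ℝ) ^ 3) ^ Q := by
                rw [sum_const, nsmul_eq_mul]
            _ ≤ _ := by
                apply mul_le_mul_of_nonneg_right _ (by positivity)
                have := card_filter_le (range e) (fun h => Nat.Coprime h e)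
                rw [card_range] at this
                exact_mod_cast this
    _ = _ := by
        rw [sum_const, card_range, nsmul_eq_mul]
        ring

end Pool.Agent.T3H29.DS
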