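import Pool.Agent.T3H29.DS.Sup2

/-! Linear digital functions: the choice of the parameters, uniformly in the modulus. -/

set_option autoImplicit false

open Finset Filter

namespace Pool.Agent.T3H29.DS

theorem exp_le_one_sub (y : ℝ) (h0 : 0 ≤ y) (h1 : y ≤ 1 / 2) : Real.exp (-(2 * y)) ≤ 1 - y := by
  rw [Real.exp_neg, inv_le_comm₀ (Real.exp_pos _) (by linarith)]
  have h2 := Real.add_one_le_exp (2 * y)
  refine le_trans ?_ h2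
  rw [inv_le_iff_one_le_mul₀ (by linarith)]
  nlinarith

theorem choose_kM (b : ℕ) (hb : 2 ≤ b) (θ : ℝ) (hθ : 0 < θ) :
    ∃ K0 : ℕ, ∀ k : ℕ, K0 ≤ k → ∀ M : ℕ, 1 ≤ M → M ^ 5 ≤ k → ∀ P Q : ℕ, θ * k ≤ P + 1 →
      Q ≤ Nat.sqrt k * b ^ 3 →
      (1 - 1 / ((b : ℝ) ^ 3 * M ^ 2)) ^ P ≤ ((1 - 1 / (b : ℝ) ^ 3) ^ Q) ^ 2 := by
  have hbr : (2 : ℝ) ≤ b := by exact_mod_cast hb
  have hb3 : (8 : ℝ) ≤ (b : ℝ) ^ 3 := by
    calc (8 : ℝ) = 2 ^ 3 := by norm_num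
      _ ≤ _ := pow_le_pow_left₀ (by norm_num) hbr 3
  have ev : ∀ᶠ k : ℕ in atTop, (4 * (b : ℝ) ^ 3 + 1) / θ ≤ (k : ℝ) ^ (1 / 10 : ℝ) :=
    ((tendsto_rpow_atTop (by norm_num)).comp tendsto_natCast_atTop_atTop).eventually_ge_atTop _
  obtain ⟨K0, hK0⟩ := eventually_atTop.1 (ev.and (eventually_ge_atTop 1))
  refine ⟨K0, fun k hk M hM hMk P Q hP hQ => ?_⟩
  obtain ⟨e1, e2⟩ := hK0 k hk
  have hkr : (1 : ℝ) ≤ k := by exact_mod_cast e2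
  have hMr : (1 : ℝ) ≤ M := by exact_mod_cast hM
  set s : ℝ := (k : ℝ) ^ (1 / 10 : ℝ) with hs
  have hs1 : 1 ≤ s := Real.one_le_rpow hkr (by norm_num)
  have hs10 : s ^ 10 = k := by
    rw [hs, ← Real.rpow_natCast, ← Real.rpow_mul (by positivity)]
    norm_num
  have hsq : ((Nat.sqrt k : ℕ) : ℝ) ≤ s ^ 5 := by
    have h1 : ((Nat.sqrt k : ℕ) : ℝ) ^ 2 ≤ (s ^ 5) ^ 2 := by
      rw [← pow_mul, hs10]
      exact_mod_cast Nat.sqrt_le' k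
    exact (sq_le_sq₀ (Nat.cast_nonneg _) (by positivity)).1 h1
  have hMs : (M : ℝ) ≤ s ^ 2 := by
    have h1 : (M : ℝ) ^ 5 ≤ (s ^ 2) ^ 5 := by
      rw [← pow_mul, hs10]
      exact_mod_cast hMk
    exact (pow_le_pow_iff_left₀ (Nat.cast_nonneg _) (by positivity) (by norm_num)).1 h1
  have hmain : 4 * ((Nat.sqrt k : ℕ) : ℝ) * ((b : ℝ) ^ 3 * M ^ 2) ≤ P := by
    have h1 : 4 * ((Nat.sqrt k : ℕ) : ℝ) * ((b : ℝ) ^ 3 * M ^ 2) ≤ 4 * (b : ℝ) ^ 3 * s ^ 9 := by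
      calc 4 * ((Nat.sqrt k : ℕ) : ℝ) * ((b : ℝ) ^ 3 * M ^ 2) ≤ 4 * s ^ 5 * ((b : ℝ) ^ 3 * (s ^ 2) ^ 2) := by
            gcongr
        _ = _ := by ring
    have h2 : (4 * (b : ℝ) ^ 3 + 1) * s ^ 9 ≤ θ * k := by
      rw [div_le_iff₀ hθ] at e1
      calc (4 * (b : ℝ) ^ 3 + 1) * s ^ 9 ≤ (s * θ) * s ^ 9 := mul_le_mul_of_nonneg_right e1 (by positivity)
        _ = θ * s ^ 10 := by ring
        _ = _ := by rw [hs10]
    have h3 : (1 : ℝ) ≤ s ^ 9 := one_le_pow₀ hs1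
    have h4 : (4 * (b : ℝ) ^ 3 + 1) * s ^ 9 = 4 * (b : ℝ) ^ 3 * s ^ 9 + s ^ 9 := by ring
    linarith
  have hx0 : (0 : ℝ) < (b : ℝ) ^ 3 * M ^ 2 := by positivity
  have hy0 : (0 : ℝ) < (b : ℝ) ^ 3 := by positivity
  have hxx : 1 / ((b : ℝ) ^ 3 * M ^ 2) ≤ 1 := by
    rw [div_le_one hx0]
    have : (1 : ℝ) ≤ (M : ℝ) ^ 2 := one_le_pow₀ hMr
    nlinarith
  have h1 : (1 - 1 / ((b : ℝ) ^ 3 * M ^ 2)) ^ P ≤ Real.exp (-(P / ((b : ℝ) ^ 3 * M ^ 2))) := by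
    have h2 : 1 - 1 / ((b : ℝ) ^ 3 * M ^ 2) ≤ Real.exp (-(1 / ((b : ℝ) ^ 3 * M ^ 2))) := by
      have := Real.add_one_le_exp (-(1 / ((b : ℝ) ^ 3 * M ^ 2)))
      linarith
    calc (1 - 1 / ((b : ℝ) ^ 3 * M ^ 2)) ^ P ≤ (Real.exp (-(1 / ((b : ℝ) ^ 3 * M ^ 2)))) ^ P :=
          pow_le_pow_left₀ (by linarith) h2 P
      _ = _ := by
          rw [← Real.exp_nat_mul]
          congr 1
          ring
  have hy : 1 / (b : ℝ) ^ 3 ≤ 1 / 2 := by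
    apply one_div_le_one_div_of_le (by norm_num)
    linarith
  have h2 : Real.exp (-(4 * Q / (b : ℝ) ^ 3)) ≤ ((1 - 1 / (b : ℝ) ^ 3) ^ Q) ^ 2 := by
    have h3 := exp_le_one_sub (1 / (b : ℝ) ^ 3) (by positivity) hy
    calc Real.exp (-(4 * Q / (b : ℝ) ^ 3)) = (Real.exp (-(2 * (1 / (b : ℝ) ^ 3)))) ^ (Q * 2) := by
          rw [← Real.exp_nat_mul]
          congr 1
          push_cast
          ring
      _ ≤ (1 - 1 / (b : ℝ) ^ 3) ^ (Q * 2) := pow_le_pow_left₀ (Real.exp_pos _).le h3 _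
      _ = _ := by rw [pow_mul]
  refine h1.trans (le_trans ?_ h2)
  apply Real.exp_le_exp.2
  apply neg_le_neg
  have hQr : (Q : ℝ) ≤ (Nat.sqrt k : ℕ) * (b : ℝ) ^ 3 := by exact_mod_cast hQ
  calc 4 * Q / (b : ℝ) ^ 3 ≤ 4 * ((Nat.sqrt k : ℕ) * (b : ℝ) ^ 3) / (b : ℝ) ^ 3 := by gcongr
    _ = 4 * ((Nat.sqrt k : ℕ) : ℝ) := by field_simp
    _ ≤ P / ((b : ℝ) ^ 3 * M ^ 2) := by
        rw [le_div_iff₀ hx0]
        exact hmain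

theorem le_sqrt_of_pow_five (M k : ℕ) (hM : 1 ≤ M) (hMk : M ^ 5 ≤ k) : M ≤ Nat.sqrt k := by
  rw [Nat.le_sqrt']
  exact (Nat.pow_le_pow_right hM (by norm_num)).trans hMk

theorem exp_M (b : ℕ) (hb : 2 ≤ b) (k M : ℕ) (hM : 1 ≤ M) (hMk : M ^ 5 ≤ k) :
    (1 - 1 / (b : ℝ) ^ 3) ^ (Nat.sqrt k * b ^ 3) ≤ 1 / (2 * M) := by
  have hbr : (2 : ℝ) ≤ b := by exact_mod_cast hb
  have hb3 : (8 : ℝ) ≤ (b : ℝ) ^ 3 := by
    calc (8 : ℝ) = 2 ^ 3 := by norm_num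
      _ ≤ _ := pow_le_pow_left₀ (by norm_num) hbr 3
  have hMr : (1 : ℝ) ≤ M := by exact_mod_cast hM
  have hMq : (M : ℝ) ≤ (Nat.sqrt k : ℕ) := by exact_mod_cast le_sqrt_of_pow_five M k hM hMk
  set q : ℕ := Nat.sqrt k
  have hy : 1 / (b : ℝ) ^ 3 ≤ 1 := by
    rw [div_le_one (by linarith)]
    linarith
  have h1 : (1 - 1 / (b : ℝ) ^ 3) ^ (q * b ^ 3) ≤ Real.exp (-(q : ℝ)) := by
    have h2 : 1 - 1 / (b : ℝ) ^ 3 ≤ Real.exp (-(1 / (b : ℝ) ^ 3)) := by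
      have := Real.add_one_le_exp (-(1 / (b : ℝ) ^ 3))
      linarith
    calc (1 - 1 / (b : ℝ) ^ 3) ^ (q * b ^ 3) ≤ (Real.exp (-(1 / (b : ℝ) ^ 3))) ^ (q * b ^ 3) :=
          pow_le_pow_left₀ (by linarith) h2 _
      _ = _ := by
          rw [← Real.exp_nat_mul]
          congr 1
          push_cast
          field_simp
  refine h1.trans ?_
  rw [Real.exp_neg, ← one_div]
  apply one_div_le_one_div_of_le (by positivity)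
  have h3 := Real.quadratic_le_exp_of_nonneg (Nat.cast_nonneg q : (0 : ℝ) ≤ q)
  nlinarith [sq_nonneg ((q : ℝ) - 1)]

theorem evlog2 (A B : ℝ) (hB : 0 < B) : ∃ k0 : ℕ, ∀ k : ℕ, k0 ≤ k → ∀ M : ℕ, 1 ≤ M → M ^ 5 ≤ k →
    A * M * k ≤ B * 2 ^ k := by
  have h1 := tendsto_pow_const_div_const_pow_of_one_lt 2 (show (1 : ℝ) < 2 by norm_num)
  have h2 : ∀ᶠ k : ℕ in atTop, (k : ℝ) ^ 2 / 2 ^ k < B / (|A| + 1) :=
    h1.eventually_lt_const (by positivity)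
  obtain ⟨k0, hk0⟩ := eventually_atTop.1 h2
  refine ⟨k0, fun k hk M hM hMk => ?_⟩
  have h3 := hk0 k hk
  have hMk' : (M : ℝ) ≤ k := by
    have h4 : M ≤ k := (Nat.le_self_pow (by norm_num) M).trans hMk
    exact_mod_cast h4
  rw [div_lt_div_iff₀ (by positivity) (by positivity)] at h3
  have h5 : A * M * k ≤ |A| * (k : ℝ) ^ 2 := by
    calc A * M * k ≤ |A| * M * k := by
          have := le_abs_self A
          gcongr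
      _ ≤ |A| * k * k := by gcongr
      _ = _ := by ring
  have h6 : (0 : ℝ) ≤ (k : ℝ) ^ 2 := sq_nonneg _
  nlinarith

theorem evlog3 (A : ℝ) : ∃ k0 : ℕ, ∀ k : ℕ, k0 ≤ k → ∀ M : ℕ, 1 ≤ M → M ^ 5 ≤ k → A * M ≤ k := by
  obtain ⟨q0, hq0⟩ := exists_nat_ge A
  refine ⟨q0 ^ 2, fun k hk M hM hMk => ?_⟩
  have h1 : q0 ≤ Nat.sqrt k := by rw [Nat.le_sqrt']; exact hk
  have h2 := le_sqrt_of_pow_five M k hM hMk
  have h3 : q0 * M ≤ k := by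
    calc q0 * M ≤ Nat.sqrt k * Nat.sqrt k := Nat.mul_le_mul h1 h2
      _ ≤ k := Nat.sqrt_le k
  calc A * M ≤ q0 * M := mul_le_mul_of_nonneg_right hq0 (Nat.cast_nonneg _)
    _ ≤ k := by exact_mod_cast h3

end Pool.Agent.T3H29.DS
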