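import Pool.Agent.T3H29.DG.Main
import Pool.Agent.T3H29.DS.Abs
import Pool.Agent.T3H29.DS.Asym2
import Pool.Agent.T3H29.DS.Sup3
import Pool.Agent.T3H29.DS.SetR
import Pool.Agent.T3H29.DS.ErrS

/-! Almost prime values of `n ^ 2 + a` with `n` an integer with restricted digits and a prescribed value of a
linear digital function. -/

set_option autoImplicit false

open Finset Polynomial Filter

namespace Pool.Agent.T3H29.DS

open Pool.Agent.T3H29.DG
open Pool.Agent.W23.DC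
open Pool.Agent.Y882
open Pool.Agent.Y882.PX
open Pool.Agent.Y882.KW
open Pool.Agent.Y882.SI
open Pool.Agent.Y882.MG

open Classical in
/-- **The almost primes, one last digit.** -/
theorem restr2 (a : ℤ) (ha : ¬ IsSquare (-a)) (r : ℕ) (τ ζ υ lam S : ℝ) (hζ : 0 < ζ) (h2 : 2 * ζ < τ)
    (h4 : τ ≤ 4 * ζ) (hτ : τ < 1) (hζυ : ζ ≤ υ) (hυτ : υ < τ)
    (hlam : 0 < lam)
    (hJ0 : ∫ x in ζ..υ, (lam - lam / υ * x) / (τ - x) / x < Real.log (τ / ζ - 1) / τ) (hS : 2 < S)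
    (hr : 1 / lam + S / υ ≤ r + 1) (η : ℝ) (hη0 : 0 ≤ η) (hη : η < 1 / 2) (hητ : τ < 1 - η)
    (b m : ℕ) (hmb : 2 * m + 2 ≤ b) (hL : 2 * ∑ t ∈ range b, gg b m t ≤ (b : ℝ) ^ η)
    (hbζ : 4 ≤ (b : ℝ) ^ ζ) (hbυ : 4 ≤ (b : ℝ) ^ (1 - υ)) :
    ∃ δ : ℝ, 0 < δ ∧ ∀ θ : ℝ, 0 < θ → ∃ k0 : ℕ, ∀ k : ℕ, k0 ≤ k → ∀ M : ℕ, 1 ≤ M → M ^ 5 ≤ k →
      ∀ D : ℕ → Finset ℕ, (∀ i < k, D i ⊆ range b) →
      (∀ i < k, 1 ≤ i → (range b \ D i).card ≤ m) → ∀ dig : ℕ → ℤ, θ * k ≤ (goodp b dig M k).card →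
      ∀ v : ℤ, ∀ d0 : ℕ, D 0 = {d0} → Nat.Coprime ((d0 : ℤ) ^ 2 + a).natAbs b →
      δ * (SD b D k).card / (M * k) ≤ ((good a r (((b : ℝ) ^ k) ^ ζ) (SR b D dig M v k)).card : ℝ) := by
  have ha0 : a ≠ 0 := by
    rintro rfl
    exact ha ⟨0, by simp⟩
  have hb2 : 2 ≤ b := by omega
  have hb0 : 0 < b := by omega
  have hbr : (2 : ℝ) ≤ b := by exact_mod_cast hb2
  have hυ0 : 0 < υ := by linarith
  have hυ1 : υ ≤ 1 := by linarith
  have hlb0 : 0 < Real.log b := Real.log_pos (by linarith)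
  -- the level
  obtain ⟨τ', hτ'⟩ : ∃ τ' : ℝ, τ' = (τ + (1 - η)) / 2 := ⟨_, rfl⟩
  obtain ⟨ε0, hε0, hε1, hε2⟩ : ∃ ε0 : ℝ, 0 < ε0 ∧ ε0 < 1 - 2 * η ∧ ε0 < 1 - η - τ' := by
    refine ⟨min ((1 - 2 * η) / 2) ((1 - η - τ') / 2), ?_, ?_, ?_⟩
    · apply lt_min <;> linarith
    · refine (min_le_left _ _).trans_lt ?_
      linarith
    · refine (min_le_right _ _).trans_lt ?_
      linarith
  obtain ⟨σ, hσ⟩ : ∃ σ : ℝ, σ = 1 - ε0 := ⟨_, rfl⟩
  have hτ'0 : 0 < τ' := by linarith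
  have hτ'1 : τ' ≤ 1 := by linarith
  have hσ1 : σ ≤ 1 := by linarith
  have hησ : 2 * η < σ := by linarith
  have hτσ : τ' * (2 - σ) < 1 - η := by
    rw [hσ]
    have : τ' * ε0 ≤ 1 * ε0 := mul_le_mul_of_nonneg_right hτ'1 hε0.le
    linarith
  obtain ⟨C, hC1, hC⟩ := pow_card_le 2 ε0 hε0
  have hCk : ∀ e : ℕ, 1 ≤ e → (kap e : ℝ) / e ≤ C * (e : ℝ) ^ (-σ) := by
    intro e he
    have he0 : (0 : ℝ) < e := by exact_mod_cast he
    have h5 := hC e.primeFactors (fun p hp => Nat.prime_of_mem_primeFactors hp)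
    have h6 : ((∏ p ∈ e.primeFactors, p : ℕ) : ℝ) ^ ε0 ≤ (e : ℝ) ^ ε0 := by
      apply Real.rpow_le_rpow (Nat.cast_nonneg _) _ hε0.le
      exact_mod_cast Nat.le_of_dvd (by omega) (Nat.prod_primeFactors_dvd e)
    have h7 : (kap e : ℝ) = (2 : ℕ) ^ e.primeFactors.card := by
      unfold kap
      push_cast
      rfl
    rw [h7, div_le_iff₀ he0]
    refine h5.trans ((mul_le_mul_of_nonneg_left h6 (by linarith)).trans (le_of_eq ?_))
    rw [mul_assoc]
    congr 1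
    have h8 : (e : ℝ) ^ ε0 = (e : ℝ) ^ (-σ + 1) := by
      congr 1
      linarith
    rw [h8, Real.rpow_add he0, Real.rpow_one]
  obtain ⟨k1, hk1⟩ := asym2 b hb2 η σ τ' C hη0 hησ hσ1 hτ'0 hτ'1 hτσ (by linarith) 7
  obtain ⟨δ1, ε₁, η1, hδ1, hε₁, hε₁ζ, hε₁β, hη1, Y0, HE⟩ := core5 2 τ ζ υ lam (lam / υ) τ' 1
    hζ h2 h4 hτ.le hζυ hυτ hlam.le (by positivity) (by rw [div_mul_cancel₀ _ hυ0.ne']) hJ0
    (by linarith) one_pos
  obtain ⟨Y1, HM⟩ := mer_quad a ha ε₁ υ η1 hε₁ hυ1 hη1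
  obtain ⟨c, hc, HLo⟩ := lo_quad a ha
  have ev1 : ∀ᶠ Y : ℕ in atTop, (b : ℝ) + 1 ≤ (Y : ℝ) ^ ε₁ :=
    ((tendsto_rpow_atTop hε₁).comp tendsto_natCast_atTop_atTop).eventually_ge_atTop _
  have ev2 : ∀ᶠ Y : ℕ in atTop, 1 + |(a : ℝ)| ≤ (Y : ℝ) ^ (S - 2) :=
    ((tendsto_rpow_atTop (by linarith)).comp tendsto_natCast_atTop_atTop).eventually_ge_atTop _
  have ev3 : ∀ᶠ Y : ℕ in atTop, (a.natAbs : ℝ) + 4 ≤ (Y : ℝ) ^ ζ :=
    ((tendsto_rpow_atTop hζ).comp tendsto_natCast_atTop_atTop).eventually_ge_atTop _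
  obtain ⟨Y2, hY2⟩ := eventually_atTop.1 (ev1.and (ev2.and (ev3.and (eventually_ge_atTop 3))))
  refine ⟨δ1 * c / (4 * Real.log b), by positivity, fun θ hθ => ?_⟩
  obtain ⟨k2, hk2⟩ := evlog2 (28 * b * Real.log b) (δ1 * c) (by positivity)
  obtain ⟨k3, hk3⟩ := evlog3 (10 * Real.log b ^ 6)
  have hb3 : (8 : ℝ) ≤ (b : ℝ) ^ 3 := by
    calc (8 : ℝ) = 2 ^ 3 := by norm_num
      _ ≤ _ := pow_le_pow_left₀ (by norm_num) hbr 3
  have hα1 : 1 - 1 / (b : ℝ) ^ 3 < 1 := by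
    have : 0 < 1 / (b : ℝ) ^ 3 := by positivity
    linarith
  have hα0 : 0 < 1 - 1 / (b : ℝ) ^ 3 := by
    have : 1 / (b : ℝ) ^ 3 ≤ 1 / 8 := one_div_le_one_div_of_le (by norm_num) hb3
    linarith
  obtain ⟨k4, hk4⟩ := choose_kM b hb2 θ hθ
  refine ⟨max (max (max k1 k2) (max (max k3 k4) 1)) (max (max Y0 Y1) Y2), ?_⟩
  intro k hk M hM hMk D hD hm dig hdig v d0 hD0 hd0
  have hMr : (1 : ℝ) ≤ M := by exact_mod_cast hM
  have hkk1 : k1 ≤ k := ((le_max_left _ _).trans ((le_max_left _ _).trans (le_max_left _ _))).trans hk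
  have hkk2 : k2 ≤ k := ((le_max_right _ _).trans ((le_max_left _ _).trans (le_max_left _ _))).trans hk
  have hkk3 : k3 ≤ k := ((le_max_left _ _).trans ((le_max_left _ _).trans
    ((le_max_right _ _).trans (le_max_left _ _)))).trans hk
  have hkk5 : k4 ≤ k := ((le_max_right _ _).trans ((le_max_left _ _).trans
    ((le_max_right _ _).trans (le_max_left _ _)))).trans hk
  have hkk4 : 1 ≤ k := ((le_max_right _ _).trans ((le_max_right _ _).trans (le_max_left _ _))).trans hk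
  have hkY : k < b ^ k := Nat.lt_pow_self hb2
  set Y : ℕ := b ^ k with hYdef
  have hYY0 : Y0 ≤ Y := (((le_max_left _ _).trans ((le_max_left _ _).trans (le_max_right _ _))).trans hk).trans hkY.le
  have hYY1 : Y1 ≤ Y := (((le_max_right _ _).trans ((le_max_left _ _).trans (le_max_right _ _))).trans hk).trans hkY.le
  have hYY2 : Y2 ≤ Y := (((le_max_right _ _).trans (le_max_right _ _)).trans hk).trans hkY.le
  obtain ⟨e1, e2, e3, e4⟩ := hY2 Y hYY2
  have hYbk : ((b : ℝ) ^ k) = (Y : ℝ) := by rw [hYdef]; push_cast; rfl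
  have hYr : (3 : ℝ) ≤ Y := by exact_mod_cast e4
  have hY0 : (0 : ℝ) < Y := by linarith
  have hY1r : (1 : ℝ) ≤ Y := by linarith
  have hlY : 0 < Real.log Y := Real.log_pos (by linarith)
  have hkr : (1 : ℝ) ≤ k := by exact_mod_cast hkk4
  have hlogY : Real.log Y = k * Real.log b := by rw [← hYbk, Real.log_pow]
  obtain ⟨w, Q, hQ, hQs, hAs⟩ := hk1 k hkk1
  obtain ⟨cc, hcL, hcD, HJ⟩ := HE Y hYY0
  rw [hYbk]
  set J := SR b D dig M v k with hJ
  have hJ0r : (0 : ℝ) ≤ J.card := Nat.cast_nonneg _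
  set X : ℝ := ((SD b D k).card : ℝ) with hX
  have hX0 : 0 ≤ X := Nat.cast_nonneg _
  have hjM : ∀ j ∈ (range M).erase 0, ¬ M ∣ j := by
    intro j hj hdvd
    rw [mem_erase, mem_range] at hj
    have := Nat.le_of_dvd (Nat.pos_of_ne_zero hj.1) hdvd
    omega
  have hsupQ : ∀ Q : ℕ, Q ≤ Nat.sqrt k * b ^ 3 → ∀ j ∈ (range M).erase 0, ∀ θ' : ℝ,
      UT b D k (fun i => (j : ℝ) * dig i / M) θ' ≤ (1 - 1 / (b : ℝ) ^ 3) ^ Q := by
    intro Q hQ' j hj θ'
    have u1 := UT_sq b m M D dig k hD hm hmb hM j (hjM j hj) θ'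
    have u2 := hk4 k hkk5 M hM hMk ((goodp b dig M k).card - 1) Q (by
      refine hdig.trans ?_
      have : (goodp b dig M k).card ≤ (goodp b dig M k).card - 1 + 1 := by omega
      exact_mod_cast this) hQ'
    exact (sq_le_sq₀ (UT_nonneg _ _ _ _ _) (by positivity)).1 (u1.trans u2)
  have hXJ : X ≤ 2 * M * J.card := by
    apply card_SR b hb0 D dig M hM v k hD
    calc ∑ j ∈ (range M).erase 0, UT b D k (fun i => (j : ℝ) * dig i / M) 0 ≤
        ∑ _j ∈ (range M).erase 0, 1 / (2 * (M : ℝ)) := by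
          apply sum_le_sum
          intro j hj
          exact (hsupQ _ le_rfl j hj 0).trans (exp_M b hb2 k M hM hMk)
      _ = (((range M).erase 0).card : ℝ) * (1 / (2 * (M : ℝ))) := by rw [sum_const, nsmul_eq_mul]
      _ ≤ M * (1 / (2 * (M : ℝ))) := by
          apply mul_le_mul_of_nonneg_right _ (by positivity)
          have := card_le_card (erase_subset 0 (range M))
          rw [card_range] at this
          exact_mod_cast this
      _ = 1 / 2 := by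
          field_simp
  have hbZ : ∀ p ∈ pr Y ε₁ υ, ¬ p ∣ b := by
    intro p hp hpb
    obtain ⟨u1, u2, u3⟩ := pr_mem Y p ε₁ υ (by omega) hp
    have := Nat.le_of_dvd hb0 hpb
    have : (p : ℝ) ≤ b := by exact_mod_cast this
    linarith
  have hmer : Mer (pr Y ε₁ υ) (tt Y) (fun p => (rb a b p : ℝ) / p) ε₁ υ η1 := by
    intro u v hu huv hv
    have := HM Y hYY1 u v hu huv hv
    have h5 : ∑ p ∈ (pr Y ε₁ υ).filter (fun p => u ≤ tt Y p ∧ tt Y p < v), (rb a b p : ℝ) / p =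
        ∑ p ∈ (pr Y ε₁ υ).filter (fun p => u ≤ tt Y p ∧ tt Y p < v), (ro (QF a) 0 p : ℝ) / p := by
      apply sum_congr rfl
      intro p hp
      unfold rb
      rw [if_neg (hbZ p (mem_filter.1 hp).1)]
    show |∑ p ∈ (pr Y ε₁ υ).filter (fun p => u ≤ tt Y p ∧ tt Y p < v), (rb a b p : ℝ) / p -
      Real.log (v / u)| ≤ η1
    rw [h5]
    exact this
  have hrb2 : ∀ p : ℕ, p.Prime → rb a b p ≤ 2 := by
    intro p hp
    unfold rb
    split_ifs
    · omega
    · exact ro_quad_le a p hp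
  have hrbp : ∀ p : ℕ, p.Prime → rb a b p ≤ p := by
    intro p hp
    unfold rb
    split_ifs
    · omega
    · exact ro_le_self _ _ _
  -- the error
  obtain ⟨Δ, hΔ⟩ : ∃ Δ : ℕ, Δ = ⌊(Y : ℝ) ^ τ'⌋₊ := ⟨_, rfl⟩
  have hΔr : (Δ : ℝ) ≤ (Y : ℝ) ^ τ' := by
    rw [hΔ]
    exact Nat.floor_le (by positivity)
  have hPZp : ∀ p ∈ PZ Y υ, p.Prime := by
    intro p hp
    unfold PZ at hp
    rw [mem_filter] at hp
    exact hp.2.1
  have hS0 : ∀ n ∈ J, n % b = d0 := by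
    intro n hn
    rw [hJ] at hn
    unfold SR SD at hn
    rw [mem_filter, mem_filter] at hn
    have h3 := hn.1.2 0 (by omega)
    rw [hD0, mem_singleton, pow_zero, Nat.div_one] at h3
    exact h3
  have herr1 := err_totalS a b J X hX0 (AU b D dig M k) (AU_nonneg b D dig M k)
    (fun d hd => frac_SR b hb0 D dig M hM v k hD d hd) d0 hS0 hd0 (PZ Y υ) hPZp cc (5 * Real.log Y)
    (by positivity) hcL Δ (by
      intro T hT hcT
      rw [hΔ]
      exact Nat.le_floor (hcD T hT hcT))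
  have herr2 := swap_boundU b k hb2 (AU b D dig M k) (AU_nonneg b D dig M k) η σ hη0 (by linarith) hησ.le hσ1
    (fun J' Q' hJQ => sum_AU b m D dig M hM k hD hm (by omega) _
      (Real.one_le_rpow (by linarith) hη0) hL J' Q' hJQ) C (by linarith) hCk
    Δ w Q (fun e he hbe hw => AU_small b m D dig M hM k hD hm hmb Q w hQ (hsupQ Q hQs) e he hbe hw)
  have herr3 := hAs Δ (by rw [hYbk]; exact hΔr)
  have hE3 : (1 + Real.log Δ) ^ 2 *
        ∑ e ∈ (Ioc 1 Δ).filter (fun e => Nat.Coprime e b), (kap e : ℝ) / e * AU b D dig M k e ≤ 1 / (k : ℝ) ^ 7 :=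
    (mul_le_mul_of_nonneg_left herr2 (sq_nonneg _)).trans herr3
  have herr : |∑ T ∈ (PZ Y υ).powerset, cc T *
      (((J.filter (fun n : ℕ => ∏ p ∈ T, p ∣ ((QF a).eval (n : ℤ)).natAbs)).card : ℝ) -
      J.card * ∏ p ∈ T, ((rb a b p : ℝ) / p))| ≤ J.card / Real.log Y ^ (2 * 2 + 1) := by
    refine herr1.trans ?_
    calc 5 * Real.log Y * (X * ((1 + Real.log Δ) ^ 2 *
        ∑ e ∈ (Ioc 1 Δ).filter (fun e => Nat.Coprime e b), (kap e : ℝ) / e * AU b D dig M k e)) ≤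
        5 * Real.log Y * ((2 * M * J.card) * (1 / (k : ℝ) ^ 7)) := by
          apply mul_le_mul_of_nonneg_left _ (by positivity)
          exact (mul_le_mul_of_nonneg_left hE3 hX0).trans (mul_le_mul_of_nonneg_right hXJ (by positivity))
      _ = J.card * (10 * M * Real.log Y / (k : ℝ) ^ 7) := by ring
      _ ≤ J.card * (1 / Real.log Y ^ (2 * 2 + 1)) := by
          apply mul_le_mul_of_nonneg_left _ hJ0r
          rw [div_le_div_iff₀ (by positivity) (by positivity)]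
          have h5 : 10 * M * Real.log b ^ 6 ≤ k := by
            refine le_trans (le_of_eq ?_) (hk3 k hkk3 M hM hMk)
            ring
          calc 10 * M * Real.log Y * Real.log Y ^ (2 * 2 + 1) = (10 * M * Real.log b ^ 6) * (k : ℝ) ^ 6 := by
                rw [hlogY]
                ring
            _ ≤ k * (k : ℝ) ^ 6 := mul_le_mul_of_nonneg_right h5 (by positivity)
            _ = 1 * (k : ℝ) ^ 7 := by ring
      _ = _ := by ring
  have hmain := HJ J (fun n => ((QF a).eval (n : ℤ)).natAbs) (rb a b) Y (by rw [Real.rpow_one]) hrb2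
    hrbp hmer herr
  -- the local factor
  have hlo : c / Real.log Y ≤ ∏ p ∈ (Icc 1 Y).filter Nat.Prime, (1 - (rb a b p : ℝ) / p) := by
    refine (HLo Y e4).trans ?_
    unfold lo
    apply Finset.prod_le_prod
    · intro p hp
      have hpp := (mem_filter.1 hp).2
      have hp0 : (0 : ℝ) < p := by exact_mod_cast hpp.pos
      rw [sub_nonneg, div_le_one hp0]
      exact_mod_cast ro_le_self (QF a) 0 p
    · intro p hp
      have hpp := (mem_filter.1 hp).2
      have hp0 : (0 : ℝ) < p := by exact_mod_cast hpp.pos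
      unfold rb
      split_ifs
      · simp only [Nat.cast_zero, zero_div, sub_zero]
        have : (0 : ℝ) ≤ (ro (QF a) 0 p : ℝ) / p := by positivity
        linarith
      · exact le_rfl
  -- squares
  have hbad := bad_le a ha0 Y ζ υ (by omega) e3
  have hJY : J ⊆ range Y := (filter_subset _ _).trans (filter_subset _ _)
  have hJlow' := card_SD_ge b m hmb D k hkk4 hD hm (by rw [hD0]; simp)
  rw [hYbk, ← hX] at hJlow'
  have hJlow : (Y : ℝ) ≤ b * 2 ^ k * (2 * M * J.card) :=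
    hJlow'.trans (mul_le_mul_of_nonneg_left hXJ (by positivity))
  have h4k : (0 : ℝ) < 4 ^ k := by positivity
  have hYζ : (4 : ℝ) ^ k ≤ (Y : ℝ) ^ ζ := by
    rw [← hYbk, ← Real.rpow_natCast, ← Real.rpow_natCast, ← Real.rpow_mul (by positivity),
      mul_comm, Real.rpow_mul (by positivity), Real.rpow_natCast, Real.rpow_natCast]
    exact pow_le_pow_left₀ (by norm_num) hbζ k
  have hYυ : (4 : ℝ) ^ k * (Y : ℝ) ^ υ ≤ Y := by
    have h5 : (4 : ℝ) ^ k ≤ (Y : ℝ) ^ (1 - υ) := by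
      rw [← hYbk, ← Real.rpow_natCast, ← Real.rpow_natCast, ← Real.rpow_mul (by positivity),
        mul_comm, Real.rpow_mul (by positivity), Real.rpow_natCast, Real.rpow_natCast]
      exact pow_le_pow_left₀ (by norm_num) hbυ k
    calc (4 : ℝ) ^ k * (Y : ℝ) ^ υ ≤ (Y : ℝ) ^ (1 - υ) * (Y : ℝ) ^ υ :=
          mul_le_mul_of_nonneg_right h5 (by positivity)
      _ = Y := by
          rw [← Real.rpow_add hY0]
          have : 1 - υ + υ = 1 := by ring
          rw [this, Real.rpow_one]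
  have hY4 : (4 : ℝ) ^ k ≤ Y := by
    refine le_trans ?_ hYυ
    exact le_mul_of_one_le_right h4k.le (Real.one_le_rpow hY1r hυ0.le)
  have hbad2 : ((badS a Y ζ υ).card : ℝ) ≤ 7 * (Y / 4 ^ k) := by
    refine hbad.trans ?_
    have h5 : (1 : ℝ) ≤ Y / 4 ^ k := by rw [le_div_iff₀ h4k]; linarith
    have h6 : (Y : ℝ) * (2 / (Y : ℝ) ^ ζ) ≤ 2 * (Y / 4 ^ k) := by
      calc (Y : ℝ) * (2 / (Y : ℝ) ^ ζ) ≤ (Y : ℝ) * (2 / 4 ^ k) := by gcongr
        _ = _ := by ring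
    have h7 : (Y : ℝ) ^ υ ≤ Y / 4 ^ k := by rw [le_div_iff₀ h4k]; linarith
    linarith
  have hbad3 : 7 * ((Y : ℝ) / 4 ^ k) ≤ δ1 * J.card * (c / Real.log Y) / 2 := by
    have h5 : (Y : ℝ) / 4 ^ k ≤ b * (2 * M * J.card) / 2 ^ k := by
      have h8 : (4 : ℝ) ^ k = 2 ^ k * 2 ^ k := by
        rw [← mul_pow]
        norm_num
      rw [div_le_div_iff₀ h4k (by positivity), h8]
      calc (Y : ℝ) * 2 ^ k ≤ (b * 2 ^ k * (2 * M * J.card)) * 2 ^ k := mul_le_mul_of_nonneg_right hJlow (by positivity)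
        _ = _ := by ring
    have h6 := hk2 k hkk2 M hM hMk
    calc 7 * ((Y : ℝ) / 4 ^ k) ≤ 7 * (b * (2 * M * J.card) / 2 ^ k) := by linarith
      _ = J.card * (14 * M * b / 2 ^ k) := by ring
      _ ≤ J.card * (δ1 * c / (2 * Real.log Y)) := by
          apply mul_le_mul_of_nonneg_left _ hJ0r
          rw [div_le_div_iff₀ (by positivity) (by positivity), hlogY]
          calc 14 * (M : ℝ) * (b : ℝ) * (2 * (k * Real.log b)) = 28 * b * Real.log b * M * k := by ring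
            _ ≤ δ1 * c * 2 ^ k := h6
      _ = _ := by
          field_simp
  -- conclusion
  have hcount : ((J.filter (fun j : ℕ => 0 < WW Y ζ υ lam (lam / υ) ((QF a).eval (j : ℤ)).natAbs)).card : ℝ) ≤
      ((good a r ((Y : ℝ) ^ ζ) J).card : ℝ) + ((badS a Y ζ υ).card : ℝ) := by
    have hsub : J.filter (fun j : ℕ => 0 < WW Y ζ υ lam (lam / υ) ((QF a).eval (j : ℤ)).natAbs) ⊆
        good a r ((Y : ℝ) ^ ζ) J ∪ badS a Y ζ υ := by
      intro n hn
      rw [mem_filter] at hn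
      obtain ⟨hn1, hn2⟩ := hn
      rw [mem_union]
      by_cases hq : ∃ q ∈ pr Y ζ υ, ((q ^ 2 : ℕ) : ℤ) ∣ (QF a).eval (n : ℤ)
      · right
        unfold badS
        rw [mem_filter]
        exact ⟨hJY hn1, hq⟩
      · left
        unfold Pool.Agent.T3H29.DG.good
        rw [mem_filter]
        refine ⟨hn1, ?_⟩
        rw [QF_eval] at hn2
        have hne : ((n : ℤ) ^ 2 + a) ≠ 0 := by
          intro h0
          apply ha
          exact ⟨(n : ℤ), by linarith⟩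
        have hnY := mem_range.1 (hJY hn1)
        have hsize : (((n : ℤ) ^ 2 + a).natAbs : ℝ) ≤ (Y : ℝ) ^ S := by
          have u1 : (((n : ℤ) ^ 2 + a).natAbs : ℝ) = |(n : ℝ) ^ 2 + a| := by
            rw [Nat.cast_natAbs]
            push_cast
            rfl
          rw [u1]
          have u2 : (n : ℝ) ≤ Y := by exact_mod_cast hnY.le
          have u3 : (n : ℝ) ^ 2 ≤ (Y : ℝ) ^ 2 := pow_le_pow_left₀ (Nat.cast_nonneg _) u2 2
          have u4 : (1 : ℝ) ≤ (Y : ℝ) ^ 2 := one_le_pow₀ hY1r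
          have u5 := abs_nonneg (a : ℝ)
          have u6 : |(a : ℝ)| * 1 ≤ |(a : ℝ)| * (Y : ℝ) ^ 2 := mul_le_mul_of_nonneg_left u4 u5
          have u7 : (1 + |(a : ℝ)|) * (Y : ℝ) ^ 2 = (Y : ℝ) ^ 2 + |(a : ℝ)| * (Y : ℝ) ^ 2 := by ring
          calc |(n : ℝ) ^ 2 + a| ≤ |(n : ℝ) ^ 2| + |(a : ℝ)| := abs_add_le _ _
            _ = (n : ℝ) ^ 2 + |(a : ℝ)| := by rw [abs_of_nonneg (by positivity)]
            _ ≤ (1 + |(a : ℝ)|) * (Y : ℝ) ^ 2 := by rw [u7]; linarith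
            _ ≤ (Y : ℝ) ^ (S - 2) * (Y : ℝ) ^ 2 := mul_le_mul_of_nonneg_right e2 (by positivity)
            _ = (Y : ℝ) ^ S := by
                rw [← Real.rpow_natCast (Y : ℝ) 2, ← Real.rpow_add hY0]
                congr 1
                push_cast
                ring
        have hres := almost Y (by omega) ζ υ lam S r hζυ hυ0 hυ1 hlam hr
          ((n : ℤ) ^ 2 + a).natAbs (Int.natAbs_ne_zero.2 hne) hsize hn2 (by
            intro q hq' hqd
            apply hq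
            refine ⟨q, hq', ?_⟩
            rw [QF_eval]
            exact Int.natCast_dvd.2 hqd)
        exact ⟨hres.1, fun p hp hpd => hres.2 p hp (Int.natCast_dvd.1 hpd)⟩
    exact_mod_cast (card_le_card hsub).trans (card_union_le _ _)
  have hfin1 : δ1 * J.card * (c / Real.log Y) ≤ δ1 * J.card *
      ∏ p ∈ (Icc 1 Y).filter Nat.Prime, (1 - (rb a b p : ℝ) / p) :=
    mul_le_mul_of_nonneg_left hlo (by positivity)
  have hfin2 : δ1 * c / (4 * Real.log b) * X / (M * k) ≤ δ1 * J.card * (c / Real.log Y) / 2 := by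
    calc δ1 * c / (4 * Real.log b) * X / (M * k) ≤ δ1 * c / (4 * Real.log b) * (2 * M * J.card) / (M * k) := by
          gcongr
      _ = _ := by
          rw [hlogY]
          have : (k : ℝ) ≠ 0 := by positivity
          have : (M : ℝ) ≠ 0 := by positivity
          field_simp
          norm_num
  linarith

end Pool.Agent.T3H29.DS
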