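import Pool.Agent.T3H29.DG.Small

/-! Integers with restricted digits and linear digital functions: exponential sums. -/

set_option autoImplicit false

open Finset

namespace Pool.Agent.T3H29.DS

open Pool.Agent.T3H29.DG

/-- the normalised exponential sum with shifts -/
noncomputable def UT (b : ℕ) (D : ℕ → Finset ℕ) (k : ℕ) (s : ℕ → ℝ) (θ : ℝ) : ℝ :=
  ∏ i ∈ range k, ff (D i) ((b : ℝ) ^ i * θ + s i)

theorem UT_nonneg (b : ℕ) (D : ℕ → Finset ℕ) (k : ℕ) (s : ℕ → ℝ) (θ : ℝ) : 0 ≤ UT b D k s θ :=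
  prod_nonneg fun _ _ => ff_nonneg _ _

theorem UT_zero (b : ℕ) (D : ℕ → Finset ℕ) (k : ℕ) (θ : ℝ) : UT b D k (fun _ => 0) θ = TT b D k θ := by
  unfold UT TT
  simp

theorem digit_sum (b n k : ℕ) : ∑ i ∈ range k, (n / b ^ i % b) * b ^ i = n % b ^ k := by
  induction k with
  | zero => simp [Nat.mod_one]
  | succ k ih =>
    rw [sum_range_succ, ih, Nat.mod_pow_succ]
    ring

theorem ee_sum {ι : Type*} (S : Finset ι) (f : ι → ℝ) : ee (∑ i ∈ S, f i) = ∏ i ∈ S, ee (f i) := by
  classical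
  induction S using Finset.induction_on with
  | empty => simp [ee_zero]
  | insert a S ha ih => rw [sum_insert ha, prod_insert ha, ee_add, ih]

theorem norm_US (b : ℕ) (hb : 0 < b) (D : ℕ → Finset ℕ) (k : ℕ) (hD : ∀ i < k, D i ⊆ range b)
    (s : ℕ → ℝ) (θ : ℝ) :
    ‖∑ n ∈ SD b D k, ee (n * θ + ∑ i ∈ range k, s i * ((n / b ^ i % b : ℕ) : ℝ))‖ =
      UT b D k s θ * (SD b D k).card := by
  have h1 : ∑ n ∈ SD b D k, ee (n * θ + ∑ i ∈ range k, s i * ((n / b ^ i % b : ℕ) : ℝ)) =
      ∏ i ∈ range k, ∑ t ∈ D i, ee (t * ((b : ℝ) ^ i * θ + s i)) := by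
    rw [← sum_prod b hb D (fun i t => ee ((t : ℝ) * ((b : ℝ) ^ i * θ + s i))) k hD]
    apply sum_congr rfl
    intro n hn
    rw [← ee_sum]
    congr 1
    have h2 : n % b ^ k = n := by
      apply Nat.mod_eq_of_lt
      unfold SD at hn
      rw [mem_filter, mem_range] at hn
      exact hn.1
    have h3 := digit_sum b n k
    rw [h2] at h3
    have h4 : (n : ℝ) = ∑ i ∈ range k, ((n / b ^ i % b : ℕ) : ℝ) * (b : ℝ) ^ i := by
      have : ((∑ i ∈ range k, (n / b ^ i % b) * b ^ i : ℕ) : ℝ) = n := by rw [h3]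
      rw [← this]
      push_cast
      rfl
    calc (n : ℝ) * θ + ∑ i ∈ range k, s i * ((n / b ^ i % b : ℕ) : ℝ) =
        (∑ i ∈ range k, ((n / b ^ i % b : ℕ) : ℝ) * (b : ℝ) ^ i) * θ +
          ∑ i ∈ range k, s i * ((n / b ^ i % b : ℕ) : ℝ) := by rw [← h4]
      _ = _ := by
          rw [sum_mul, ← sum_add_distrib]
          apply sum_congr rfl
          intro i _
          ring
  rw [h1, card_SD b hb D k hD, norm_prod]
  unfold UT
  push_cast
  rw [← prod_mul_distrib]
  apply prod_congr rfl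
  intro i _
  unfold ff
  rcases Nat.eq_zero_or_pos (D i).card with h | h
  · rw [card_eq_zero] at h
    rw [h]
    simp
  · have : ((D i).card : ℝ) ≠ 0 := by exact_mod_cast h.ne'
    rw [div_mul_cancel₀ _ this]

/-- the bound for the exponential sum over the digits with a shift -/
noncomputable def gs (b m κ t : ℕ) : ℝ := gg b m ((t + κ) % b) + gg b m ((t + κ + 1) % b)

theorem gs_nonneg (b m κ t : ℕ) (hmb : 2 * m < b) : 0 ≤ gs b m κ t :=
  add_nonneg (gg_nonneg _ _ _ hmb) (gg_nonneg _ _ _ hmb)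

theorem sum_shift (b : ℕ) (F : ℕ → ℝ) (κ : ℕ) :
    ∑ t ∈ range b, F ((t + κ) % b) = ∑ t ∈ range b, F t := by
  induction κ with
  | zero =>
    apply sum_congr rfl
    intro t ht
    rw [add_zero, Nat.mod_eq_of_lt (mem_range.1 ht)]
  | succ κ ih =>
    rw [← ih]
    have h1 : ∑ t ∈ range (b + 1), F ((t + κ) % b) = ∑ t ∈ range b, F ((t + κ) % b) + F ((b + κ) % b) :=
      sum_range_succ _ _
    have h2 : ∑ t ∈ range (b + 1), F ((t + κ) % b) = ∑ t ∈ range b, F ((t + 1 + κ) % b) + F ((0 + κ) % b) :=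
      sum_range_succ' _ _
    rw [Nat.add_mod_left] at h1
    rw [zero_add] at h2
    have h3 : ∑ t ∈ range b, F ((t + (κ + 1)) % b) = ∑ t ∈ range b, F ((t + 1 + κ) % b) := by
      apply sum_congr rfl
      intro t _
      congr 2
      ring
    linarith

theorem sum_gs (b m κ : ℕ) : ∑ t ∈ range b, gs b m κ t = 2 * ∑ t ∈ range b, gg b m t := by
  unfold gs
  rw [sum_add_distrib, sum_shift b (gg b m) κ]
  have : ∑ t ∈ range b, gg b m ((t + κ + 1) % b) = ∑ t ∈ range b, gg b m t := sum_shift b (gg b m) (κ + 1)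
  rw [this]
  ring

theorem ff_digit' (b m : ℕ) (D : Finset ℕ) (hD : D ⊆ range b) (hm : (range b \ D).card ≤ m)
    (hmb : 2 * m < b) (i : ℕ) (α : ℝ) (hα : 0 ≤ α) (s : ℝ) :
    ff D ((b : ℝ) ^ i * α + s) ≤ gs b m ⌊(b : ℝ) * Int.fract s⌋₊ (⌊(b : ℝ) ^ (i + 1) * α⌋₊ % b) := by
  have hb : 0 < b := by omega
  have hb0 : (0 : ℝ) < b := by exact_mod_cast hb
  set y : ℝ := (b : ℝ) ^ (i + 1) * α with hy
  have hy0 : 0 ≤ y := by positivity
  set N : ℕ := ⌊y⌋₊ with hN
  set f : ℝ := (b : ℝ) * Int.fract s with hf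
  have hf0 : 0 ≤ f := by
    have := Int.fract_nonneg s
    positivity
  set κ : ℕ := ⌊f⌋₊ with hκ
  set N' : ℕ := ⌊y + f⌋₊ with hN'
  have a1 : (N : ℝ) ≤ y := Nat.floor_le hy0
  have a2 : y < N + 1 := Nat.lt_floor_add_one y
  have a3 : (κ : ℝ) ≤ f := Nat.floor_le hf0
  have a4 : f < κ + 1 := Nat.lt_floor_add_one f
  have a5 : (N' : ℝ) ≤ y + f := Nat.floor_le (by positivity)
  have a6 : y + f < N' + 1 := Nat.lt_floor_add_one _
  have a7 : N' = N + κ ∨ N' = N + κ + 1 := by
    have b1 : N + κ < N' + 1 := by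
      have : (N : ℝ) + κ < N' + 1 := by linarith
      exact_mod_cast this
    have b2 : N' < N + κ + 2 := by
      have : (N' : ℝ) < N + κ + 2 := by linarith
      exact_mod_cast this
    omega
  have h3 : (b : ℝ) ^ i * α + s = ((N' % b : ℕ) + (y + f - N')) / b + ((((N' / b : ℕ) : ℤ) + ⌊s⌋ : ℤ) : ℝ) := by
    have h4 : (N' : ℝ) = ((N' % b : ℕ) : ℝ) + b * ((N' / b : ℕ) : ℝ) := by
      exact_mod_cast (Nat.mod_add_div N' b).symm
    have h5 : (b : ℝ) ^ i * α = y / b := by
      rw [hy, pow_succ]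
      field_simp
    have h6 : s = f / b + ⌊s⌋ := by
      have := Int.fract_add_floor s
      have h7 : f / b = Int.fract s := by
        rw [hf]
        field_simp
      rw [h7]
      exact this.symm
    have h8 : ((N' % b : ℕ) + (y + f - N')) / (b : ℝ) = y / b + f / b - ((N' / b : ℕ) : ℝ) := by
      field_simp
      linarith
    rw [h5, h8, Int.cast_add, Int.cast_natCast]
    linarith
  rw [h3, ff_add_int]
  refine (ff_le_gg b m D hD hm hmb _ (Nat.mod_lt _ hb) _ (by linarith) (by linarith)).trans ?_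
  unfold gs
  have e1 : ∀ j : ℕ, (N % b + κ + j) % b = (N + κ + j) % b := by
    intro j
    rw [add_assoc, add_assoc, Nat.mod_add_mod]
  rcases a7 with h | h
  · have h9 := e1 0
    rw [add_zero, add_zero] at h9
    rw [h9, ← h]
    have := gg_nonneg b m ((N % b + κ + 1) % b) hmb
    linarith
  · rw [e1 1, ← h]
    have := gg_nonneg b m ((N % b + κ) % b) hmb
    linarith

/-- the weights -/
noncomputable def wws (b m k : ℕ) (κ : ℕ → ℕ) (i t : ℕ) : ℝ := if i = 0 ∨ k ≤ i then 1 else gs b m (κ i) t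

theorem wws_nonneg (b m k : ℕ) (κ : ℕ → ℕ) (i t : ℕ) (hmb : 2 * m < b) : 0 ≤ wws b m k κ i t := by
  unfold wws
  split_ifs
  · norm_num
  · exact gs_nonneg b m _ t hmb

theorem UT_le (b m : ℕ) (D : ℕ → Finset ℕ) (k : ℕ) (hD : ∀ i < k, D i ⊆ range b)
    (hm : ∀ i < k, 1 ≤ i → (range b \ D i).card ≤ m) (hmb : 2 * m < b) (s : ℕ → ℝ) (J : ℕ) (α : ℝ)
    (hα : 0 ≤ α) :
    UT b D k s α ≤ ∏ i ∈ range J, wws b m k (fun i => ⌊(b : ℝ) * Int.fract (s i)⌋₊) i
      (⌊(b : ℝ) ^ J * α⌋₊ / b ^ (J - 1 - i) % b) := by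
  have hb : 0 < b := by omega
  have hb0 : (0 : ℝ) < b := by exact_mod_cast hb
  set A : ℕ → ℝ := fun i => if i < k then ff (D i) ((b : ℝ) ^ i * α + s i) else 1 with hA
  have hA0 : ∀ i, 0 ≤ A i := by
    intro i
    simp only [hA]
    split_ifs
    · exact ff_nonneg _ _
    · norm_num
  have hA1 : ∀ i, A i ≤ 1 := by
    intro i
    simp only [hA]
    split_ifs
    · exact ff_le_one _ _
    · norm_num
  have h1 : UT b D k s α = ∏ i ∈ range (k + J), A i := by
    rw [prod_range_add]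
    have e1 : ∏ x ∈ range J, A (k + x) = 1 := by
      apply prod_eq_one
      intro x _
      simp only [hA]
      rw [if_neg (by omega)]
    rw [e1, mul_one]
    unfold UT
    apply prod_congr rfl
    intro i hi
    simp only [hA]
    rw [if_pos (mem_range.1 hi)]
  have h2 : ∏ i ∈ range (k + J), A i ≤ ∏ i ∈ range J, A i := by
    rw [add_comm, prod_range_add]
    calc (∏ x ∈ range J, A x) * ∏ x ∈ range k, A (J + x) ≤ (∏ x ∈ range J, A x) * 1 := by
          apply mul_le_mul_of_nonneg_left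
          · exact prod_le_one (fun i _ => hA0 _) (fun i _ => hA1 _)
          · exact prod_nonneg fun i _ => hA0 _
      _ = _ := mul_one _
  rw [h1]
  refine h2.trans ?_
  apply prod_le_prod (fun i _ => hA0 i)
  intro i hi
  have hiJ := mem_range.1 hi
  unfold wws
  split_ifs with h
  · exact hA1 i
  · push Not at h
    simp only [hA]
    rw [if_pos h.2]
    have h3 := ff_digit' b m (D i) (hD i h.2) (hm i h.2 (Nat.pos_of_ne_zero h.1)) hmb i α hα (s i)
    have h4 : ⌊(b : ℝ) ^ J * α⌋₊ / b ^ (J - 1 - i) = ⌊(b : ℝ) ^ (i + 1) * α⌋₊ := by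
      rw [← Nat.floor_div_natCast]
      congr 1
      have e : J = (i + 1) + (J - 1 - i) := by omega
      have e2 : (b : ℝ) ^ J = (b : ℝ) ^ (i + 1) * (b : ℝ) ^ (J - 1 - i) := by
        rw [← pow_add, ← e]
      rw [e2]
      push_cast
      field_simp
    rw [h4]
    exact h3

theorem sum_wws (b m k : ℕ) (κ : ℕ → ℕ) (J : ℕ) (hmb : 2 * m < b) (L : ℝ) (hL1 : 1 ≤ L)
    (hL : 2 * ∑ t ∈ range b, gg b m t ≤ L) :
    ∑ r ∈ range (b ^ J), ∏ i ∈ range J, wws b m k κ i (r / b ^ (J - 1 - i) % b) ≤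
      b * (L ^ min J k * (b : ℝ) ^ (J - k)) := by
  have hb : 0 < b := by omega
  have hb1 : (1 : ℝ) ≤ b := by exact_mod_cast hb
  have h1 : ∑ r ∈ range (b ^ J), ∏ i ∈ range J, wws b m k κ i (r / b ^ (J - 1 - i) % b) =
      ∏ i ∈ range J, ∑ t ∈ range b, wws b m k κ (J - 1 - i) t := by
    rw [← sum_prod b hb (fun _ => range b) (fun i t => wws b m k κ (J - 1 - i) t) J (fun _ _ => subset_rfl),
      SD_full b J hb]
    apply sum_congr rfl
    intro r _
    rw [← prod_range_reflect]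
    apply prod_congr rfl
    intro i hi
    have := mem_range.1 hi
    rw [show J - 1 - (J - 1 - i) = i by omega]
  rw [h1, prod_range_reflect (fun i => ∑ t ∈ range b, wws b m k κ i t) J]
  have h2 : ∀ i ∈ range J, ∑ t ∈ range b, wws b m k κ i t ≤
      (if i = 0 then (b : ℝ) else 1) * (if k ≤ i then (b : ℝ) else L) := by
    intro i _
    unfold wws
    by_cases h3 : i = 0
    · rw [if_pos h3]
      simp only [h3, true_or, if_true, sum_const, card_range, nsmul_eq_mul, mul_one]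
      have : 1 ≤ if k ≤ 0 then (b : ℝ) else L := by split_ifs <;> linarith
      nlinarith
    · by_cases h4 : k ≤ i
      · simp only [h3, h4, or_true, if_true, sum_const, card_range, nsmul_eq_mul, mul_one, if_false,
          one_mul, le_refl]
      · simp only [h3, h4, or_self, if_false, one_mul]
        rw [sum_gs]
        exact hL
  calc ∏ i ∈ range J, ∑ t ∈ range b, wws b m k κ i t ≤
      ∏ i ∈ range J, (if i = 0 then (b : ℝ) else 1) * (if k ≤ i then (b : ℝ) else L) := by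
        apply prod_le_prod
        · intro i _
          exact sum_nonneg fun t _ => wws_nonneg b m k κ i t hmb
        · exact h2
    _ = (∏ i ∈ range J, (if i = 0 then (b : ℝ) else 1)) * ∏ i ∈ range J, (if k ≤ i then (b : ℝ) else L) :=
        prod_mul_distrib
    _ ≤ b * (L ^ min J k * (b : ℝ) ^ (J - k)) := by
        apply mul_le_mul
        · rcases Nat.eq_zero_or_pos J with h | h
          · rw [h]
            simpa using hb1
          · rw [prod_ite_eq' (range J) 0 (fun _ => (b : ℝ)), if_pos (mem_range.2 h)]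
        · apply le_of_eq
          rw [prod_ite, prod_const, prod_const, mul_comm]
          congr 2
          · have : (range J).filter (fun i => ¬ k ≤ i) = range (min J k) := by
              ext i
              simp only [mem_filter, mem_range]
              omega
            rw [this, card_range]
          · have : (range J).filter (fun i => k ≤ i) = Ico k J := by
              ext i
              simp only [mem_filter, mem_range, mem_Ico]
              omega
            rw [this, Nat.card_Ico]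
        · apply prod_nonneg
          intro i _
          split_ifs <;> linarith
        · linarith

/-- the sum over the reduced fractions with denominator `e` -/
noncomputable def US (b : ℕ) (D : ℕ → Finset ℕ) (k : ℕ) (s : ℕ → ℝ) (e : ℕ) : ℝ :=
  ∑ h ∈ (range e).filter (fun h => Nat.Coprime h e), UT b D k s ((h : ℝ) / e)

theorem US_nonneg (b : ℕ) (D : ℕ → Finset ℕ) (k : ℕ) (s : ℕ → ℝ) (e : ℕ) : 0 ≤ US b D k s e :=
  sum_nonneg fun _ _ => UT_nonneg _ _ _ _ _

theorem sum_US (b m : ℕ) (D : ℕ → Finset ℕ) (k : ℕ) (hD : ∀ i < k, D i ⊆ range b)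
    (hm : ∀ i < k, 1 ≤ i → (range b \ D i).card ≤ m) (hmb : 2 * m < b) (s : ℕ → ℝ) (L : ℝ) (hL1 : 1 ≤ L)
    (hL : 2 * ∑ t ∈ range b, gg b m t ≤ L) (J Q : ℕ) (hJ : Q ^ 2 ≤ b ^ J) :
    ∑ e ∈ Icc 1 Q, US b D k s e ≤ b * (L ^ min J k * (b : ℝ) ^ (J - k)) := by
  have hb : 0 < b := by omega
  set κ : ℕ → ℕ := fun i => ⌊(b : ℝ) * Int.fract (s i)⌋₊ with hκ
  refine le_trans ?_ (sum_wws b m k κ J hmb L hL1 hL)
  unfold US
  rw [sum_sigma']
  set P := (Icc 1 Q).sigma (fun e => (range e).filter (fun h => Nat.Coprime h e)) with hP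
  set g : (Σ _ : ℕ, ℕ) → ℕ := fun x => ⌊(b : ℝ) ^ J * ((x.2 : ℝ) / x.1)⌋₊ with hg
  have hmem : ∀ x ∈ P, 1 ≤ x.1 ∧ x.1 ≤ Q ∧ x.2 < x.1 ∧ Nat.Coprime x.2 x.1 := by
    intro x hx
    rw [hP, mem_sigma, mem_Icc, mem_filter, mem_range] at hx
    exact ⟨hx.1.1, hx.1.2, hx.2.1, hx.2.2⟩
  have hinj : Set.InjOn g P := by
    intro x hx y hy hxy
    obtain ⟨x1, x2, x3, x4⟩ := hmem x hx
    obtain ⟨y1, y2, y3, y4⟩ := hmem y hy
    have := frac_sep Q (b ^ J) hJ x.1 y.1 x.2 y.2 x1 y1 x2 y2 x4 y4 (by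
      push_cast
      exact hxy)
    obtain ⟨u1, u2⟩ := this
    cases x
    cases y
    simp only at u1 u2
    subst u1
    subst u2
    rfl
  calc ∑ x ∈ P, UT b D k s ((x.2 : ℝ) / x.1) ≤
      ∑ x ∈ P, ∏ i ∈ range J, wws b m k κ i (g x / b ^ (J - 1 - i) % b) := by
        apply sum_le_sum
        intro x _
        exact UT_le b m D k hD hm hmb s J _ (by positivity)
    _ = ∑ r ∈ P.image g, ∏ i ∈ range J, wws b m k κ i (r / b ^ (J - 1 - i) % b) := by
        rw [sum_image (fun x hx y hy h => hinj hx hy h)]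
    _ ≤ _ := by
        apply sum_le_sum_of_subset_of_nonneg
        · intro r hr
          rw [mem_image] at hr
          obtain ⟨x, hx, rfl⟩ := hr
          obtain ⟨x1, x2, x3, x4⟩ := hmem x hx
          rw [mem_range, hg]
          show ⌊(b : ℝ) ^ J * ((x.2 : ℝ) / x.1)⌋₊ < b ^ J
          have hx0 : (0 : ℝ) < x.1 := by exact_mod_cast x1
          rw [Nat.floor_lt (by positivity)]
          push_cast
          have h1 : (x.2 : ℝ) / x.1 < 1 := by
            rw [div_lt_one hx0]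
            exact_mod_cast x3
          have h2 : (0 : ℝ) < (b : ℝ) ^ J := by positivity
          nlinarith
        · intro r _ _
          exact prod_nonneg fun i _ => wws_nonneg _ _ _ _ _ _ hmb

end Pool.Agent.T3H29.DS
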