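import Pool.Agent.T3H29.DS.Shift

/-! Integers with restricted digits and linear digital functions: the supremum of the exponential sums. -/

set_option autoImplicit false

open Finset

namespace Pool.Agent.T3H29.DS

open Pool.Agent.T3H29.DG

/-- `ff D x` is small if `x` is not near an integer -/
theorem ff_far (b : ℕ) (D : Finset ℕ) (hD : D ⊆ range b) (t : ℕ) (ht : t ∈ D) (ht1 : t + 1 ∈ D)
    (x s : ℝ) (hs : 0 ≤ s) (h1 : s ≤ Int.fract x) (h2 : Int.fract x ≤ 1 - s) :
    ff D x ≤ 1 - 4 * s ^ 2 / b := by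
  have hb : 0 < b := by
    have := mem_range.1 (hD ht1)
    omega
  have hb0 : (0 : ℝ) < b := by exact_mod_cast hb
  have hx : x = Int.fract x + ((⌊x⌋ : ℤ) : ℝ) := (Int.fract_add_floor x).symm
  rw [hx, ff_add_int]
  set y := Int.fract x with hy
  have hcard : (D.card : ℝ) ≤ b := by
    have := card_le_card hD
    rw [card_range] at this
    exact_mod_cast this
  have hsub : ({t, t + 1} : Finset ℕ) ⊆ D := by
    intro y hy
    rw [mem_insert, mem_singleton] at hy
    rcases hy with rfl | rfl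
    · exact ht
    · exact ht1
  have hcard0 : (2 : ℝ) ≤ D.card := by
    have := card_le_card hsub
    rw [card_pair (by omega)] at this
    exact_mod_cast this
  have hsum : ‖∑ u ∈ D, ee (u * y)‖ ≤ D.card - 4 * s ^ 2 := by
    rw [← sum_sdiff hsub, sum_pair (by omega)]
    have e1 : ee (t * y) + ee (((t + 1 : ℕ) : ℝ) * y) = ee (t * y) * (1 + ee y) := by
      have : (((t + 1 : ℕ) : ℝ) * y) = t * y + y := by push_cast; ring
      rw [this, ee_add]
      ring
    rw [e1]
    have e2 : ‖ee (t * y) * (1 + ee y)‖ ≤ 2 * (1 - 2 * s ^ 2) := by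
      rw [norm_mul, norm_ee, one_mul]
      exact norm_one_add_ee y _ hs h1 h2
    have e3 : ‖∑ u ∈ D \ {t, t + 1}, ee (u * y)‖ ≤ D.card - 2 := by
      calc ‖∑ u ∈ D \ {t, t + 1}, ee (u * y)‖ ≤ ∑ u ∈ D \ {t, t + 1}, ‖ee (u * y)‖ := norm_sum_le _ _
        _ = ((D \ {t, t + 1}).card : ℝ) := by simp [norm_ee]
        _ = D.card - 2 := by
            have := card_sdiff_add_card_eq_card hsub
            rw [card_pair (by omega)] at this
            have h3 : ((D \ {t, t + 1}).card : ℝ) + 2 = D.card := by exact_mod_cast this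
            linarith
    refine (norm_add_le _ _).trans ?_
    linarith
  unfold ff
  rw [div_le_iff₀ (by linarith)]
  refine hsum.trans ?_
  have h4 : 4 * s ^ 2 / b * D.card ≤ 4 * s ^ 2 := by
    calc 4 * s ^ 2 / b * D.card ≤ 4 * s ^ 2 / b * b := by gcongr
      _ = _ := by field_simp
  linarith

/-- near an integer -/
theorem near_int (x s : ℝ) (h : ¬ (s ≤ Int.fract x ∧ Int.fract x ≤ 1 - s)) :
    ∃ n : ℤ, |x - n| < s := by
  rcases not_and_or.1 h with h1 | h1
  · refine ⟨⌊x⌋, ?_⟩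
    have h2 := Int.fract_nonneg x
    have h3 := Int.fract_add_floor x
    rw [show x - (⌊x⌋ : ℤ) = Int.fract x by linarith, abs_of_nonneg h2]
    linarith
  · refine ⟨⌊x⌋ + 1, ?_⟩
    have h2 := Int.fract_lt_one x
    have h3 := Int.fract_add_floor x
    push_cast
    rw [show x - ((⌊x⌋ : ℤ) + 1 : ℝ) = Int.fract x - 1 by linarith, abs_of_nonpos (by linarith)]
    linarith

/-- two consecutive places -/
theorem two_places (b m M : ℕ) (D D' : Finset ℕ) (hD : D ⊆ range b) (hD' : D' ⊆ range b)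
    (hm : (range b \ D).card ≤ m) (hm' : (range b \ D').card ≤ m) (hmb : 2 * m + 2 ≤ b) (hM : 1 ≤ M)
    (j : ℕ) (hj : ¬ M ∣ j) (c c' : ℤ) (hc : IsCoprime ((b : ℤ) * c - c') (M : ℤ)) (x : ℝ) :
    ff D (x + j * c / M) * ff D' (b * x + j * c' / M) ≤ 1 - 1 / ((b : ℝ) ^ 3 * M ^ 2) := by
  have hb : 2 ≤ b := by omega
  have hbr : (2 : ℝ) ≤ b := by exact_mod_cast hb
  have hMr : (1 : ℝ) ≤ M := by exact_mod_cast hM
  set s : ℝ := 1 / (2 * b * M) with hs
  have hs0 : 0 < s := by positivity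
  have e1 : 4 * s ^ 2 / b = 1 / ((b : ℝ) ^ 3 * M ^ 2) := by
    rw [hs]
    field_simp
    norm_num
  obtain ⟨t, ht, ht1⟩ := consec b m D hm hmb
  obtain ⟨t', ht', ht1'⟩ := consec b m D' hm' hmb
  by_cases h1 : s ≤ Int.fract (x + j * c / M) ∧ Int.fract (x + j * c / M) ≤ 1 - s
  · have h3 := ff_far b D hD t ht ht1 _ s hs0.le h1.1 h1.2
    rw [e1] at h3
    calc _ ≤ ff D (x + j * c / M) * 1 := mul_le_mul_of_nonneg_left (ff_le_one _ _) (ff_nonneg _ _)
      _ ≤ _ := by rw [mul_one]; exact h3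
  by_cases h2 : s ≤ Int.fract (b * x + j * c' / M) ∧ Int.fract (b * x + j * c' / M) ≤ 1 - s
  · have h3 := ff_far b D' hD' t' ht' ht1' _ s hs0.le h2.1 h2.2
    rw [e1] at h3
    calc _ ≤ 1 * ff D' (b * x + j * c' / M) := mul_le_mul_of_nonneg_right (ff_le_one _ _) (ff_nonneg _ _)
      _ ≤ _ := by rw [one_mul]; exact h3
  exfalso
  obtain ⟨n, hn⟩ := near_int _ s h1
  obtain ⟨n', hn'⟩ := near_int _ s h2
  have h3 : |(j : ℝ) * (b * c - c') / M - (b * n - n' : ℤ)| < 1 / M := by
    have e2 : (j : ℝ) * (b * c - c') / M - (b * n - n' : ℤ) =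
        b * (x + j * c / M - n) - (b * x + j * c' / M - n') := by
      push_cast
      field_simp
      ring
    rw [e2]
    calc |b * (x + j * c / M - n) - (b * x + j * c' / M - n')| ≤
        |b * (x + j * c / M - n)| + |b * x + j * c' / M - n'| := abs_sub _ _
      _ < b * s + s := by
          rw [abs_mul, abs_of_nonneg (show (0 : ℝ) ≤ b by linarith)]
          have := mul_lt_mul_of_pos_left hn (show (0 : ℝ) < b by linarith)
          linarith
      _ ≤ 1 / M := by
          rw [hs]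
          have : (b : ℝ) * (1 / (2 * b * M)) + 1 / (2 * b * M) = (b + 1) / (2 * b) * (1 / M) := by
            field_simp
          rw [this]
          have h5 : ((b : ℝ) + 1) / (2 * b) ≤ 1 := by
            rw [div_le_one (by linarith)]
            linarith
          calc ((b : ℝ) + 1) / (2 * b) * (1 / M) ≤ 1 * (1 / M) :=
                mul_le_mul_of_nonneg_right h5 (by positivity)
            _ = _ := one_mul _
  have h4 : |(((j : ℤ) * (b * c - c') - M * (b * n - n') : ℤ) : ℝ)| < 1 := by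
    have e3 : (((j : ℤ) * (b * c - c') - M * (b * n - n') : ℤ) : ℝ) =
        M * ((j : ℝ) * (b * c - c') / M - (b * n - n' : ℤ)) := by
      push_cast
      field_simp
    rw [e3, abs_mul, abs_of_nonneg (show (0 : ℝ) ≤ M by linarith)]
    calc (M : ℝ) * _ < M * (1 / M) := mul_lt_mul_of_pos_left h3 (by linarith)
      _ = 1 := by field_simp
  have h5 : (j : ℤ) * (b * c - c') - M * (b * n - n') = 0 := by
    have h6 : |(j : ℤ) * (b * c - c') - M * (b * n - n')| < 1 := by exact_mod_cast h4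
    exact Int.abs_lt_one_iff.1 h6
  apply hj
  have h7 : (M : ℤ) ∣ (j : ℤ) * (b * c - c') := ⟨b * n - n', by linarith⟩
  have h8 : (M : ℤ) ∣ (j : ℤ) := hc.symm.dvd_of_dvd_mul_right h7
  exact_mod_cast h8

end Pool.Agent.T3H29.DS
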