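import Pool.Agent.T3H29.DS.Sup

/-! Linear digital functions: the supremum of the exponential sums, many places. -/

set_option autoImplicit false

open Finset

namespace Pool.Agent.T3H29.DS

open Pool.Agent.T3H29.DG

theorem prod_sq_le (F : ℕ → ℝ) (h0 : ∀ i, 0 ≤ F i) (h1 : ∀ i, F i ≤ 1) (k : ℕ) :
    (∏ i ∈ range k, F i) ^ 2 ≤ ∏ i ∈ range (k - 1), (F i * F (i + 1)) := by
  rcases k with _ | l
  · simp
  · rw [Nat.add_sub_cancel, prod_mul_distrib, sq]
    apply mul_le_mul
    · rw [prod_range_succ]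
      calc (∏ i ∈ range l, F i) * F l ≤ (∏ i ∈ range l, F i) * 1 :=
            mul_le_mul_of_nonneg_left (h1 _) (prod_nonneg fun _ _ => h0 _)
        _ = _ := mul_one _
    · rw [prod_range_succ']
      calc (∏ i ∈ range l, F (i + 1)) * F 0 ≤ (∏ i ∈ range l, F (i + 1)) * 1 :=
            mul_le_mul_of_nonneg_left (h1 _) (prod_nonneg fun _ _ => h0 _)
        _ = _ := mul_one _
    · exact prod_nonneg fun _ _ => h0 _
    · exact prod_nonneg fun _ _ => h0 _

/-- the places at which the digital function is not degenerate -/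
noncomputable def goodp (b : ℕ) (c : ℕ → ℤ) (M k : ℕ) : Finset ℕ := by
  classical
  exact (range (k - 1)).filter (fun i => IsCoprime ((b : ℤ) * c i - c (i + 1)) (M : ℤ))

theorem UT_sq (b m M : ℕ) (D : ℕ → Finset ℕ) (c : ℕ → ℤ) (k : ℕ) (hD : ∀ i < k, D i ⊆ range b)
    (hm : ∀ i < k, 1 ≤ i → (range b \ D i).card ≤ m) (hmb : 2 * m + 2 ≤ b) (hM : 1 ≤ M)
    (j : ℕ) (hj : ¬ M ∣ j) (θ : ℝ) :
    UT b D k (fun i => (j : ℝ) * c i / M) θ ^ 2 ≤
      (1 - 1 / ((b : ℝ) ^ 3 * M ^ 2)) ^ ((goodp b c M k).card - 1) := by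
  classical
  set F : ℕ → ℝ := fun i => ff (D i) ((b : ℝ) ^ i * θ + (j : ℝ) * c i / M) with hF
  have hF0 : ∀ i, 0 ≤ F i := fun i => ff_nonneg _ _
  have hF1 : ∀ i, F i ≤ 1 := fun i => ff_le_one _ _
  have h1 : UT b D k (fun i => (j : ℝ) * c i / M) θ = ∏ i ∈ range k, F i := rfl
  rw [h1]
  refine (prod_sq_le F hF0 hF1 k).trans ?_
  set G := (goodp b c M k).erase 0 with hG
  have hGs : G ⊆ range (k - 1) := by
    intro i hi
    rw [hG, mem_erase] at hi
    have := hi.2
    unfold goodp at this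
    exact (mem_filter.1 this).1
  have hbr : (2 : ℝ) ≤ b := by exact_mod_cast (by omega : 2 ≤ b)
  have hMr : (1 : ℝ) ≤ M := by exact_mod_cast hM
  have hbM : (1 : ℝ) ≤ (b : ℝ) ^ 3 * M ^ 2 :=
    one_le_mul_of_one_le_of_one_le (one_le_pow₀ (by linarith)) (one_le_pow₀ hMr)
  have hρ0 : 0 ≤ 1 - 1 / ((b : ℝ) ^ 3 * M ^ 2) := by
    have : 1 / ((b : ℝ) ^ 3 * M ^ 2) ≤ 1 := by
      rw [div_le_one (by linarith)]
      exact hbM
    linarith
  have hρ1 : 1 - 1 / ((b : ℝ) ^ 3 * M ^ 2) ≤ 1 := by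
    have : 0 ≤ 1 / ((b : ℝ) ^ 3 * M ^ 2) := by positivity
    linarith
  calc ∏ i ∈ range (k - 1), (F i * F (i + 1)) ≤ ∏ i ∈ G, (F i * F (i + 1)) := by
        rw [← prod_sdiff hGs]
        calc _ ≤ 1 * ∏ i ∈ G, (F i * F (i + 1)) := by
              apply mul_le_mul_of_nonneg_right
              · apply prod_le_one
                · intro i _
                  exact mul_nonneg (hF0 _) (hF0 _)
                · intro i _
                  exact mul_le_one₀ (hF1 _) (hF0 _) (hF1 _)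
              · exact prod_nonneg fun _ _ => mul_nonneg (hF0 _) (hF0 _)
          _ = _ := one_mul _
    _ ≤ ∏ _i ∈ G, (1 - 1 / ((b : ℝ) ^ 3 * M ^ 2)) := by
        apply prod_le_prod
        · intro i _
          exact mul_nonneg (hF0 _) (hF0 _)
        · intro i hi
          rw [hG, mem_erase] at hi
          obtain ⟨hi0, hi1⟩ := hi
          unfold goodp at hi1
          rw [mem_filter, mem_range] at hi1
          have hk : i + 1 < k := by omega
          have h2 := two_places b m M (D i) (D (i + 1)) (hD i (by omega)) (hD (i + 1) hk)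
            (hm i (by omega) (by omega)) (hm (i + 1) hk (by omega)) hmb hM j hj (c i) (c (i + 1)) hi1.2
            ((b : ℝ) ^ i * θ)
          have h3 : (b : ℝ) ^ (i + 1) * θ = b * ((b : ℝ) ^ i * θ) := by
            rw [pow_succ]
            ring
          simp only [hF]
          rw [h3]
          exact h2
    _ = (1 - 1 / ((b : ℝ) ^ 3 * M ^ 2)) ^ G.card := by rw [prod_const]
    _ ≤ _ := by
        apply pow_le_pow_of_le_one hρ0 hρ1
        rw [hG]
        have := card_erase_add_one_le (goodp b c M k)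
        omega
where
  card_erase_add_one_le (S : Finset ℕ) : S.card ≤ (S.erase 0).card + 1 := by
    have := pred_card_le_card_erase (s := S) (a := 0)
    omega

theorem choose_k (ρ α θ : ℝ) (hρ0 : 0 < ρ) (hρ1 : ρ < 1) (hα0 : 0 < α) (hα1 : α < 1) (hθ : 0 < θ) (B : ℕ) :
    ∃ K0 : ℕ, ∀ k : ℕ, K0 ≤ k → ∀ P Q : ℕ, θ * k ≤ P + 1 → Q ≤ Nat.sqrt k * B → ρ ^ P ≤ (α ^ Q) ^ 2 := by
  set C : ℝ := -Real.log ρ with hC
  set d : ℝ := -Real.log α with hd
  have hC0 : 0 < C := by
    have := Real.log_neg hρ0 hρ1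
    linarith
  have hd0 : 0 < d := by
    have := Real.log_neg hα0 hα1
    linarith
  obtain ⟨s0, hs0⟩ := exists_nat_ge ((2 * d * B / C + 1) / θ)
  refine ⟨(max s0 1) ^ 2, fun k hk P Q hP hQ => ?_⟩
  set s := Nat.sqrt k with hs
  have hsmax : max s0 1 ≤ s := by rw [hs, Nat.le_sqrt']; exact hk
  have hs1 : (1 : ℝ) ≤ s := by exact_mod_cast (le_max_right _ _).trans hsmax
  have hss0 : (s0 : ℝ) ≤ s := by exact_mod_cast (le_max_left _ _).trans hsmax
  have hsk : (s : ℝ) ^ 2 ≤ k := by exact_mod_cast Nat.sqrt_le' k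
  have h1 : 2 * d * B / C + 1 ≤ θ * s := by
    rw [div_le_iff₀ hθ] at hs0
    have := mul_le_mul_of_nonneg_left hss0 hθ.le
    linarith
  have h2 : (2 * d * B / C + 1) * s ≤ θ * k := by
    calc (2 * d * B / C + 1) * s ≤ (θ * s) * s := mul_le_mul_of_nonneg_right h1 (by linarith)
      _ = θ * (s : ℝ) ^ 2 := by ring
      _ ≤ _ := mul_le_mul_of_nonneg_left hsk hθ.le
  have h3 : 2 * d * B / C * s ≤ P := by
    have e1 : (2 * d * B / C + 1) * s = 2 * d * B / C * s + s := by ring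
    linarith
  have h4 : (Q : ℝ) ≤ s * B := by exact_mod_cast hQ
  have h5 : 2 * d * Q ≤ C * P := by
    calc 2 * d * Q ≤ 2 * d * (s * B) := mul_le_mul_of_nonneg_left h4 (by positivity)
      _ = C * (2 * d * B / C * s) := by field_simp
      _ ≤ _ := mul_le_mul_of_nonneg_left h3 hC0.le
  have e1 : ρ ^ P = Real.exp (-(C * P)) := by
    rw [hC, ← Real.rpow_natCast, Real.rpow_def_of_pos hρ0]
    congr 1
    ring
  have e2 : (α ^ Q) ^ 2 = Real.exp (-(2 * d * Q)) := by
    rw [hd, ← pow_mul, ← Real.rpow_natCast, Real.rpow_def_of_pos hα0]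
    congr 1
    push_cast
    ring
  rw [e1, e2]
  apply Real.exp_le_exp.2
  linarith

end Pool.Agent.T3H29.DS
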